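import Pool.Agent.LGap.MT

/-! # Weighted triangle complexes -/

open MulAction

namespace LGap

variable {H V : Type*} [Group H] [MulAction H V]

/-- symmetric, invariant, locally finite weights on triples of vertices -/
structure Cx (H : Type*) {V : Type*} [Group H] [MulAction H V] (W : V → V → V → ℝ) : Prop where
  nonneg : ∀ u v w, 0 ≤ W u v w
  swap12 : ∀ u v w, W u v w = W v u w
  swap23 : ∀ u v w, W u v w = W u w v
  inv : ∀ (h : H) u v w, W (h • u) (h • v) (h • w) = W u v w
  fin : ∀ v, {q : V × V | W v q.1 q.2 ≠ 0}.Finite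

variable {W : V → V → V → ℝ}

/-- weight of an edge -/
noncomputable def em (W : V → V → V → ℝ) (v w : V) : ℝ := ∑ᶠ u, W v w u

lemma fin_row (hW : Cx H W) (v w : V) : (Function.support (fun u => W v w u)).Finite := by
  have h1 : (Function.support (fun u => W v w u)) ⊆ Prod.snd '' {q : V × V | W v q.1 q.2 ≠ 0} := by
    intro u hu
    exact ⟨(w, u), hu, rfl⟩
  exact ((hW.fin v).image _).subset h1

lemma em_nonneg (hW : Cx H W) (v w : V) : 0 ≤ em W v w :=
  finsum_nonneg (fun u => hW.nonneg v w u)

lemma em_symm (hW : Cx H W) (v w : V) : em W v w = em W w v := by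
  unfold em
  exact finsum_congr (fun u => hW.swap12 v w u)

lemma em_smul (hW : Cx H W) (h : H) (v w : V) : em W (h • v) (h • w) = em W v w := by
  unfold em
  rw [← finsum_comp_equiv (MulAction.toPerm h)]
  exact finsum_congr (fun u => hW.inv h v w u)

lemma em_ne_zero (hW : Cx H W) {v w u : V} (h : W v w u ≠ 0) : em W v w ≠ 0 := by
  have h1 : 0 < W v w u := lt_of_le_of_ne (hW.nonneg v w u) (Ne.symm h)
  have h2 : W v w u ≤ em W v w := by
    unfold em
    exact single_le_finsum u (fin_row hW v w) (fun j => hW.nonneg v w j)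
  exact (lt_of_lt_of_le h1 h2).ne'

lemma em_ne_zero_iff (hW : Cx H W) {v w : V} : em W v w ≠ 0 ↔ ∃ u, W v w u ≠ 0 := by
  constructor
  · intro h
    by_contra hcon
    push Not at hcon
    apply h
    unfold em
    rw [finsum_congr hcon, finsum_zero]
  · rintro ⟨u, hu⟩
    exact em_ne_zero hW hu

lemma fin_nbr (hW : Cx H W) (v : V) : {w | em W v w ≠ 0}.Finite := by
  have h1 : {w | em W v w ≠ 0} ⊆ Prod.fst '' {q : V × V | W v q.1 q.2 ≠ 0} := by
    intro w hw
    obtain ⟨u, hu⟩ := (em_ne_zero_iff hW).1 hw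
    exact ⟨(w, u), hu, rfl⟩
  exact ((hW.fin v).image _).subset h1

/-- the neighbours -/
noncomputable def nbr (hW : Cx H W) (v : V) : Finset V := (fin_nbr hW v).toFinset

lemma mem_nbr (hW : Cx H W) {v w : V} : w ∈ nbr hW v ↔ em W v w ≠ 0 := by
  simp [nbr]

lemma finsum_em (hW : Cx H W) (v : V) (f : V → ℝ) :
    ∑ᶠ w, em W v w * f w = ∑ w ∈ nbr hW v, em W v w * f w := by
  apply finsum_eq_sum_of_support_subset
  intro w hw
  simp only [Function.mem_support, ne_eq, mul_eq_zero, not_or] at hw
  exact (mem_nbr hW).2 hw.1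

/-- sums over the link -/
lemma pairs_fst (hW : Cx H W) (v : V) (f : V → ℝ) :
    ∑ᶠ q : V × V, W v q.1 q.2 * f q.1 = ∑ᶠ u, em W v u * f u := by
  have hsup : (Function.support (fun q : V × V => W v q.1 q.2 * f q.1)).Finite := by
    apply (hW.fin v).subset
    intro q hq
    simp only [Function.mem_support, ne_eq, mul_eq_zero, not_or] at hq
    exact hq.1
  rw [finsum_curry _ hsup]
  apply finsum_congr
  intro u
  unfold em
  rw [finsum_mul]

lemma massTransport_em [Fintype (Ty H V)] (hW : Cx H W)
    (hst : ∀ v : V, Finite (MulAction.stabilizer H v))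
    (D : V → V → ℝ) (hinv : ∀ (h : H) v w, D (h • v) (h • w) = D v w) :
    ∑ o : Ty H V, cw o * ∑ᶠ w, em W (rep o) w * D (rep o) w
      = ∑ o : Ty H V, cw o * ∑ᶠ w, em W (rep o) w * D w (rep o) := by
  have h1 := massTransport hst (fun v w => em W v w * D v w)
    (fun h v w => by simp only [em_smul hW, hinv])
    (fun v => (fin_nbr hW v).subset (fun w hw => by
      intro h0
      apply hw
      show em W v w * D v w = 0
      rw [h0, zero_mul]))
    (fun v => (fin_nbr hW v).subset (fun w hw => by
      intro h0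
      apply hw
      show em W w v * D w v = 0
      rw [em_symm hW, h0, zero_mul]))
  rw [h1]
  apply Finset.sum_congr rfl
  intro o _
  congr 1
  apply finsum_congr
  intro w
  rw [em_symm hW]

/-- an antisymmetric invariant function has total flux zero -/
lemma total_flux [Fintype (Ty H V)] (hW : Cx H W)
    (hst : ∀ v : V, Finite (MulAction.stabilizer H v))
    (D : V → V → ℝ) (hinv : ∀ (h : H) v w, D (h • v) (h • w) = D v w)
    (hanti : ∀ v w, D w v = - D v w) :
    ∑ o : Ty H V, cw o * ∑ᶠ w, em W (rep o) w * D (rep o) w = 0 := by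
  have h1 := massTransport_em hW hst D hinv
  have h2 : ∑ o : Ty H V, cw o * ∑ᶠ w, em W (rep o) w * D w (rep o)
      = - ∑ o : Ty H V, cw o * ∑ᶠ w, em W (rep o) w * D (rep o) w := by
    rw [← Finset.sum_neg_distrib]
    apply Finset.sum_congr rfl
    intro o _
    rw [← mul_neg, ← finsum_neg_distrib]
    congr 1
    apply finsum_congr
    intro w
    rw [hanti]
    ring
  linarith

end LGap
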