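import Pool.Agent.LGap.Cx

/-! # Balanced approximate positions -/

open MulAction

namespace LGap

variable {H V : Type*} [Group H] [MulAction H V] [MulAction H UI]

lemma cont_smul (hm : ∀ h : H, StrictMono (fun x : UI => h • x)) (h : H) :
    Continuous (fun x : UI => h • x) :=
  (hm h).monotone.continuous_of_surjective (fun y => ⟨h⁻¹ • y, by simp⟩)

/-- clamped difference -/
noncomputable def cl (ε a b : ℝ) : ℝ := max (-1) (min 1 ((b - a) / ε))

lemma cl_le_one (ε a b : ℝ) : cl ε a b ≤ 1 := by
  unfold cl
  exact max_le (by norm_num) (min_le_left _ _)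

lemma neg_one_le_cl (ε a b : ℝ) : -1 ≤ cl ε a b := le_max_left _ _

lemma cl_mono_right {ε : ℝ} (hε : 0 < ε) (a : ℝ) {b b' : ℝ} (h : b ≤ b') :
    cl ε a b ≤ cl ε a b' := by
  unfold cl
  apply max_le_max le_rfl
  apply min_le_min le_rfl
  gcongr

lemma cl_anti_left {ε : ℝ} (hε : 0 < ε) {a a' : ℝ} (b : ℝ) (h : a ≤ a') :
    cl ε a' b ≤ cl ε a b := by
  unfold cl
  apply max_le_max le_rfl
  apply min_le_min le_rfl
  gcongr

lemma cl_self (ε a : ℝ) : cl ε a a = 0 := by simp [cl]

lemma cl_nonneg {ε : ℝ} (hε : 0 < ε) {a b : ℝ} (h : a ≤ b) : 0 ≤ cl ε a b := by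
  rw [← cl_self ε a]
  exact cl_mono_right hε a h

lemma cl_nonpos {ε : ℝ} (hε : 0 < ε) {a b : ℝ} (h : b ≤ a) : cl ε a b ≤ 0 := by
  rw [← cl_self ε a]
  exact cl_mono_right hε a h

lemma cl_pos {ε : ℝ} (hε : 0 < ε) {a b : ℝ} (h : a < b) : 0 < cl ε a b := by
  unfold cl
  apply lt_max_of_lt_right
  apply lt_min one_pos
  have : 0 < b - a := by linarith
  positivity

lemma cl_neg {ε : ℝ} (hε : 0 < ε) {a b : ℝ} (h : b < a) : cl ε a b < 0 := by
  unfold cl
  apply max_lt (by norm_num)
  apply min_lt_of_right_lt
  apply div_neg_of_neg_of_pos _ hε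
  linarith

lemma continuous_cl (ε : ℝ) {X : Type*} [TopologicalSpace X] {f g : X → ℝ} (hf : Continuous f)
    (hg : Continuous g) : Continuous (fun x => cl ε (f x) (g x)) := by
  unfold cl
  exact continuous_const.max (continuous_const.min ((hg.sub hf).div_const ε))

/-- approximate sign of `pos w - pos v`, zero on pairs of the same type -/
noncomputable def Dc (idx : Ty H V → ℕ) (ε : ℝ) (x : Ty H V → UI) (v w : V) : ℝ :=
  if idx (typ H v) < idx (typ H w) then
    cl ε (x (typ H v)) (((frame H v)⁻¹ • pos x w : UI) : ℝ)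
  else if idx (typ H w) < idx (typ H v) then
    - cl ε (x (typ H w)) (((frame H w)⁻¹ • pos x v : UI) : ℝ)
  else 0

variable (idx : Ty H V → ℕ)

lemma Dc_anti (ε : ℝ) (x : Ty H V → UI) (v w : V) : Dc idx ε x w v = - Dc idx ε x v w := by
  unfold Dc
  rcases lt_trichotomy (idx (typ H v)) (idx (typ H w)) with h | h | h
  · rw [if_neg (by omega), if_pos h, if_pos h]
  · rw [if_neg (by omega), if_neg (by omega), if_neg (by omega), if_neg (by omega), neg_zero]
  · rw [if_pos h, if_neg (by omega), if_pos h, neg_neg]

lemma Dc_inv (hm : ∀ h : H, StrictMono (fun x : UI => h • x))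
    (hst : ∀ v : V, Finite (MulAction.stabilizer H v)) (ε : ℝ) (x : Ty H V → UI) (h : H)
    (v w : V) : Dc idx ε x (h • v) (h • w) = Dc idx ε x v w := by
  unfold Dc
  rw [typ_smul, typ_smul, pos_smul hm hst, pos_smul hm hst, frame_inv_smul hm hst,
    frame_inv_smul hm hst]

lemma Dc_le_one (ε : ℝ) (x : Ty H V → UI) (v w : V) : Dc idx ε x v w ≤ 1 := by
  unfold Dc
  split_ifs
  · exact cl_le_one _ _ _
  · have := neg_one_le_cl ε (x (typ H w)) (((frame H w)⁻¹ • pos x v : UI) : ℝ)
    linarith
  · norm_num

lemma neg_one_le_Dc (ε : ℝ) (x : Ty H V → UI) (v w : V) : -1 ≤ Dc idx ε x v w := by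
  have := Dc_le_one idx ε x w v
  rw [Dc_anti] at this
  linarith

lemma Dc_same (ε : ℝ) (x : Ty H V → UI) (v w : V) (h : typ H v = typ H w) :
    Dc idx ε x v w = 0 := by
  unfold Dc
  rw [h, if_neg (lt_irrefl _), if_neg (lt_irrefl _)]

lemma frame_pos_lt (hm : ∀ h : H, StrictMono (fun x : UI => h • x)) (x : Ty H V → UI)
    {v w : V} (h : pos x v < pos x w) :
    ((x (typ H v) : UI) : ℝ) < (((frame H v)⁻¹ • pos x w : UI) : ℝ) := by
  rw [← frame_smul_pos x v]
  exact_mod_cast (hm _ h)

lemma frame_pos_gt (hm : ∀ h : H, StrictMono (fun x : UI => h • x)) (x : Ty H V → UI)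
    {v w : V} (h : pos x w < pos x v) :
    (((frame H v)⁻¹ • pos x w : UI) : ℝ) < ((x (typ H v) : UI) : ℝ) := by
  rw [← frame_smul_pos x v]
  exact_mod_cast (hm _ h)

lemma frame_pos_eq (x : Ty H V → UI)
    {v w : V} (h : pos x v = pos x w) :
    (((frame H v)⁻¹ • pos x w : UI) : ℝ) = ((x (typ H v) : UI) : ℝ) := by
  rw [← h, frame_smul_pos x v]

lemma Dc_nonneg (hm : ∀ h : H, StrictMono (fun x : UI => h • x)) {ε : ℝ} (hε : 0 < ε)
    (x : Ty H V → UI) (v w : V) (h : pos x v ≤ pos x w) : 0 ≤ Dc idx ε x v w := by
  unfold Dc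
  rcases h.lt_or_eq with h | h
  · split_ifs
    · exact (cl_pos hε (frame_pos_lt hm x h)).le
    · have := cl_neg hε (frame_pos_gt hm x h)
      linarith
    · exact le_rfl
  · split_ifs
    · rw [frame_pos_eq x h, cl_self]
    · rw [frame_pos_eq x h.symm, cl_self, neg_zero]
    · exact le_rfl

lemma Dc_pos (hidx : Function.Injective idx)
    (hm : ∀ h : H, StrictMono (fun x : UI => h • x)) {ε : ℝ} (hε : 0 < ε)
    (x : Ty H V → UI) (v w : V) (h : pos x v < pos x w) (ht : typ H v ≠ typ H w) :
    0 < Dc idx ε x v w := by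
  unfold Dc
  rcases lt_trichotomy (idx (typ H v)) (idx (typ H w)) with h1 | h1 | h1
  · rw [if_pos h1]
    exact cl_pos hε (frame_pos_lt hm x h)
  · exact absurd (hidx h1) ht
  · rw [if_neg (by omega), if_pos h1]
    have := cl_neg hε (frame_pos_gt hm x h)
    linarith

lemma pos_mono (hm : ∀ h : H, StrictMono (fun x : UI => h • x)) {x x' : Ty H V → UI}
    (h : x ≤ x') (v : V) : pos x v ≤ pos x' v := (hm _).monotone (h _)

lemma Dc_mono (hm : ∀ h : H, StrictMono (fun x : UI => h • x)) {ε : ℝ} (hε : 0 < ε)
    {x x' : Ty H V → UI} (hx : x ≤ x') (v w : V) (hv : x (typ H v) = x' (typ H v)) :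
    Dc idx ε x v w ≤ Dc idx ε x' v w := by
  unfold Dc
  split_ifs
  · rw [hv]
    apply cl_mono_right hε
    exact_mod_cast (hm _).monotone (pos_mono hm hx w)
  · apply neg_le_neg
    have h1 : pos x v = pos x' v := by unfold pos; rw [hv]
    rw [h1]
    apply cl_anti_left hε
    exact_mod_cast hx _
  · exact le_rfl

lemma continuous_pos (hm : ∀ h : H, StrictMono (fun x : UI => h • x)) (v : V) :
    Continuous (fun x : Ty H V → UI => pos x v) := by
  unfold pos
  exact (cont_smul hm _).comp (continuous_apply _)

lemma continuous_Dc (hm : ∀ h : H, StrictMono (fun x : UI => h • x)) (ε : ℝ) (v w : V) :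
    Continuous (fun x : Ty H V → UI => Dc idx ε x v w) := by
  unfold Dc
  split_ifs
  · apply continuous_cl
    · exact continuous_subtype_val.comp (continuous_apply _)
    · exact continuous_subtype_val.comp ((cont_smul hm _).comp (continuous_pos hm w))
  · apply Continuous.neg
    apply continuous_cl
    · exact continuous_subtype_val.comp (continuous_apply _)
    · exact continuous_subtype_val.comp ((cont_smul hm _).comp (continuous_pos hm v))
  · exact continuous_const

variable {W : V → V → V → ℝ}

/-- flux of the approximate sign at the representative -/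
noncomputable def Fl (hW : Cx H W) (ε : ℝ) (o : Ty H V) (x : Ty H V → UI) : ℝ :=
  ∑ w ∈ nbr hW (rep o), em W (rep o) w * Dc idx ε x (rep o) w

lemma continuous_Fl (hW : Cx H W) (hm : ∀ h : H, StrictMono (fun x : UI => h • x)) (ε : ℝ)
    (o : Ty H V) : Continuous (Fl idx hW ε o) := by
  unfold Fl
  apply continuous_finset_sum
  intro w _
  exact continuous_const.mul (continuous_Dc idx hm ε _ _)

lemma sum_Fl [Fintype (Ty H V)] (hW : Cx H W) (hm : ∀ h : H, StrictMono (fun x : UI => h • x))
    (hst : ∀ v : V, Finite (MulAction.stabilizer H v)) (ε : ℝ) (x : Ty H V → UI) :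
    ∑ o : Ty H V, cw o * Fl idx hW ε o x = 0 := by
  rw [← total_flux hW hst (Dc idx ε x) (fun h v w => Dc_inv idx hm hst ε x h v w)
    (fun v w => Dc_anti idx ε x v w)]
  apply Finset.sum_congr rfl
  intro o _
  rw [finsum_em hW]
  rfl

/-- existence of balanced approximate positions -/
theorem exists_balanced [Fintype (Ty H V)] (hidx : Function.Injective idx) (hW : Cx H W)
    (hm : ∀ h : H, StrictMono (fun x : UI => h • x))
    (hst : ∀ v : V, Finite (MulAction.stabilizer H v))
    (hconn : ∀ v w : V, Relation.ReflTransGen (fun a b => em W a b ≠ 0) v w)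
    {ε : ℝ} (hε : 0 < ε) (o₀ : Ty H V) (c : UI) (hc : c < 1) :
    ∃ x : Ty H V → UI, x o₀ = c ∧ ∀ o, Fl idx hW ε o x = 0 := by
  classical
  set K : Set (Ty H V → UI) := {x | x o₀ = c ∧ ∀ o, o ≠ o₀ → 0 ≤ Fl idx hW ε o x} with hK
  have hKc : IsClosed K := by
    have h1 : K = {x | x o₀ = c} ∩ ⋂ o, ⋂ (_ : o ≠ o₀), {x | 0 ≤ Fl idx hW ε o x} := by
      ext x
      simp [hK]
    rw [h1]
    apply IsClosed.inter
    · exact isClosed_eq (continuous_apply _) continuous_const
    · apply isClosed_iInter
      intro o
      apply isClosed_iInter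
      intro _
      exact isClosed_le continuous_const (continuous_Fl idx hW hm ε o)
  have hKne : K.Nonempty := by
    refine ⟨Function.update (fun _ => 0) o₀ c, ?_, ?_⟩
    · simp
    · intro o ho
      apply Finset.sum_nonneg
      intro w _
      apply mul_nonneg (em_nonneg hW _ _)
      apply Dc_nonneg idx hm hε
      rw [pos_rep hm hst, Function.update_of_ne ho]
      exact Subtype.mk_le_mk.2 (pos _ w).2.1
  have hcont : Continuous (fun x : Ty H V → UI => ∑ o, ((x o : UI) : ℝ)) := by
    apply continuous_finset_sum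
    intro o _
    exact continuous_subtype_val.comp (continuous_apply _)
  obtain ⟨x, hxK, hmax⟩ := hKc.isCompact.exists_isMaxOn hKne hcont.continuousOn
  have hmax' : ∀ y ∈ K, ∑ o, ((y o : UI) : ℝ) ≤ ∑ o, ((x o : UI) : ℝ) := fun y hy => hmax hy
  obtain ⟨hx0, hxF⟩ := hxK
  -- each coordinate is balanced or equal to one
  have hstep : ∀ o, o ≠ o₀ → x o ≠ 1 → Fl idx hW ε o x = 0 := by
    intro o ho hx1
    by_contra hne
    have hpos : 0 < Fl idx hW ε o x := lt_of_le_of_ne (hxF o ho) (Ne.symm hne)
    have hlt1 : x o < 1 := lt_of_le_of_ne (Subtype.mk_le_mk.2 (x o).2.2) hx1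
    have hcg : Continuous (fun t : UI => Fl idx hW ε o (Function.update x o t)) :=
      (continuous_Fl idx hW hm ε o).comp (continuous_const.update o continuous_id)
    have hev : ∀ᶠ t in nhds (x o), 0 < Fl idx hW ε o (Function.update x o t) := by
      have h1 : Filter.Tendsto (fun t : UI => Fl idx hW ε o (Function.update x o t))
          (nhds (x o)) (nhds (Fl idx hW ε o (Function.update x o (x o)))) := hcg.tendsto _
      rw [Function.update_eq_self] at h1
      exact h1.eventually (lt_mem_nhds hpos)
    have hev2 : ∀ᶠ t in nhdsWithin (x o) (Set.Ioi (x o)),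
        0 < Fl idx hW ε o (Function.update x o t) := hev.filter_mono nhdsWithin_le_nhds
    have hne' : (nhdsWithin (x o) (Set.Ioi (x o))).NeBot := nhdsGT_neBot_of_exists_gt ⟨1, hlt1⟩
    obtain ⟨t, ht, htx⟩ := (hev2.and self_mem_nhdsWithin).exists
    have htx' : x o < t := htx
    have hupK : Function.update x o t ∈ K := by
      refine ⟨?_, ?_⟩
      · rw [Function.update_of_ne (Ne.symm ho)]
        exact hx0
      · intro o' ho'
        by_cases hoo : o' = o
        · subst hoo
          exact ht.le
        · refine (hxF o' ho').trans ?_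
          apply Finset.sum_le_sum
          intro w _
          apply mul_le_mul_of_nonneg_left _ (em_nonneg hW _ _)
          apply Dc_mono idx hm hε
          · intro o''
            by_cases h3 : o'' = o
            · subst h3
              simp [htx'.le]
            · rw [Function.update_of_ne h3]
          · rw [typ_rep, Function.update_of_ne hoo]
    have h4 := hmax' _ hupK
    have h5 : ∑ o', ((x o' : UI) : ℝ) < ∑ o', ((Function.update x o t o' : UI) : ℝ) := by
      apply Finset.sum_lt_sum
      · intro o'' _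
        by_cases h3 : o'' = o
        · subst h3
          simp only [Function.update_self]
          exact_mod_cast htx'.le
        · rw [Function.update_of_ne h3]
      · refine ⟨o, Finset.mem_univ _, ?_⟩
        simp only [Function.update_self]
        exact_mod_cast htx'
    linarith
  -- no coordinate is equal to one
  have hone : ∀ o, x o ≠ 1 := by
    intro o₁ h1
    have hprop : ∀ v w : V, Relation.ReflTransGen (fun a b => em W a b ≠ 0) v w →
        x (typ H v) = 1 → x (typ H w) = 1 := by
      intro v w hvw hv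
      induction hvw with
      | refl => exact hv
      | tail _ hbc ih =>
        rename_i b d _
        set r : V := rep (typ H b) with hr
        set g : H := frame H b with hg
        have hgr : g • r = b := frame_smul b
        set d' : V := g⁻¹ • d with hd'
        have hgd : g • d' = d := by rw [hd', smul_inv_smul]
        have hem : em W r d' ≠ 0 := by
          rw [← em_smul hW g, hgr, hgd]
          exact hbc
        have hposr : pos x r = 1 := by
          rw [hr, pos_rep hm hst]
          exact ih
        have htypb : typ H b ≠ o₀ := by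
          intro h6
          rw [h6, hx0] at ih
          exact hc.ne ih
        have hterm : ∀ w' ∈ nbr hW r, em W r w' * Dc idx ε x r w' ≤ 0 := by
          intro w' _
          apply mul_nonpos_of_nonneg_of_nonpos (em_nonneg hW _ _)
          have := Dc_nonneg idx hm hε x w' r (by
            rw [hposr]
            exact Subtype.mk_le_mk.2 (pos x w').2.2)
          rw [Dc_anti] at this
          linarith
        have hF0 : Fl idx hW ε (typ H b) x = 0 :=
          le_antisymm (Finset.sum_nonpos hterm) (hxF _ htypb)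
        have hzero : em W r d' * Dc idx ε x r d' = 0 :=
          (Finset.sum_eq_zero_iff_of_nonpos hterm).1 hF0 d' ((mem_nbr hW).2 hem)
        have hD0 : Dc idx ε x r d' = 0 := by
          rcases mul_eq_zero.1 hzero with h7 | h7
          · exact absurd h7 hem
          · exact h7
        have htd : typ H d' = typ H d := by rw [hd', typ_smul]
        by_contra hcon
        have h8 : x (typ H d') < 1 := by
          rw [htd]
          exact lt_of_le_of_ne (Subtype.mk_le_mk.2 (x (typ H d)).2.2) hcon
        have h9 : pos x d' < pos x r := by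
          rw [hposr]
          unfold pos
          have := hm (frame H d') h8
          simp only [smul_one_UI hm] at this
          exact this
        have h10 : typ H d' ≠ typ H r := by
          intro h11
          rw [h11, hr, typ_rep, ih] at h8
          exact lt_irrefl _ h8
        have h12 := Dc_pos idx hidx hm hε x d' r h9 h10
        rw [Dc_anti, hD0] at h12
        simp at h12
    have h13 := hprop (rep o₁) (rep o₀) (hconn _ _) (by rw [typ_rep]; exact h1)
    rw [typ_rep, hx0] at h13
    exact hc.ne h13
  refine ⟨x, hx0, ?_⟩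
  have hother : ∀ o, o ≠ o₀ → Fl idx hW ε o x = 0 := fun o ho => hstep o ho (hone o)
  intro o
  by_cases ho : o = o₀
  · subst ho
    have h1 := sum_Fl idx hW hm hst ε x
    rw [Finset.sum_eq_single o] at h1
    · rcases mul_eq_zero.1 h1 with h2 | h2
      · exact absurd h2 (cw_pos hst o).ne'
      · exact h2
    · intro b _ hb
      rw [hother b hb, mul_zero]
    · intro h2
      exact absurd (Finset.mem_univ _) h2
  · exact hother o ho

end LGap
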