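import Mathlib

/-! # Actions on the unit interval and on a set of vertices: orbit representatives, frames,
equivariant positions -/

open MulAction

namespace LGap

variable {H V : Type*} [Group H] [MulAction H V]

/-- the unit interval -/
abbrev UI : Type := Set.Icc (0:ℝ) 1

/-- types of vertices: the orbits -/
abbrev Ty (H V : Type*) [Group H] [MulAction H V] : Type _ := MulAction.orbitRel.Quotient H V

/-- type of a vertex -/
def typ (H : Type*) {V : Type*} [Group H] [MulAction H V] (v : V) : Ty H V :=
  Quotient.mk (MulAction.orbitRel H V) v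

/-- representative of a type -/
noncomputable def rep (o : Ty H V) : V := Quotient.out o

omit [Group H] [MulAction H V] in
lemma dummy : True := trivial

@[simp] lemma typ_rep (o : Ty H V) : typ H (rep o) = o := Quotient.out_eq _

@[simp] lemma typ_smul (h : H) (v : V) : typ H (h • v) = typ H v :=
  Quotient.sound (MulAction.orbitRel_apply.2 (MulAction.mem_orbit v h))

lemma exists_frame (v : V) : ∃ h : H, h • (rep (typ H v)) = v := by
  have h1 : typ H (rep (typ H v)) = typ H v := typ_rep _
  have h2 := Quotient.exact h1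
  have h3 : rep (typ H v) ∈ MulAction.orbit H v := MulAction.orbitRel_apply.1 h2
  obtain ⟨h, hh⟩ := h3
  refine ⟨h⁻¹, ?_⟩
  rw [← hh]
  simp

/-- a group element moving the representative to the vertex -/
noncomputable def frame (H : Type*) {V : Type*} [Group H] [MulAction H V] (v : V) : H :=
  (exists_frame (H := H) v).choose

@[simp] lemma frame_smul (v : V) : frame H v • rep (typ H v) = v :=
  (exists_frame (H := H) v).choose_spec

lemma typ_eq_iff {v w : V} : typ H v = typ H w ↔ ∃ h : H, h • v = w := by
  constructor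
  · intro h
    refine ⟨frame H w * (frame H v)⁻¹, ?_⟩
    have h1 : (frame H v)⁻¹ • v = rep (typ H v) := by
      rw [inv_smul_eq_iff, frame_smul]
    rw [mul_smul, h1, h, frame_smul]
  · rintro ⟨h, rfl⟩
    simp

section act

variable [MulAction H UI]

lemma pow_smul_gt (hm : ∀ h : H, StrictMono (fun x : UI => h • x)) (s : H) (x : UI)
    (hx : x < s • x) : ∀ n : ℕ, x < s ^ (n + 1) • x := by
  intro n
  induction n with
  | zero => simpa using hx
  | succ n ih =>
    rw [pow_succ', mul_smul]
    exact hx.trans (hm s ih)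

lemma pow_smul_lt (hm : ∀ h : H, StrictMono (fun x : UI => h • x)) (s : H) (x : UI)
    (hx : s • x < x) : ∀ n : ℕ, s ^ (n + 1) • x < x := by
  intro n
  induction n with
  | zero => simpa using hx
  | succ n ih =>
    rw [pow_succ', mul_smul]
    exact (hm s ih).trans hx

lemma torsion_trivial (hm : ∀ h : H, StrictMono (fun x : UI => h • x)) (s : H)
    (hs : IsOfFinOrder s) (x : UI) : s • x = x := by
  obtain ⟨n, hn, hsn⟩ := isOfFinOrder_iff_pow_eq_one.1 hs
  obtain ⟨m, rfl⟩ : ∃ m, n = m + 1 := ⟨n - 1, by omega⟩
  rcases lt_trichotomy x (s • x) with h | h | h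
  · have := pow_smul_gt hm s x h m
    rw [hsn, one_smul] at this
    exact absurd this (lt_irrefl _)
  · exact h.symm
  · have := pow_smul_lt hm s x h m
    rw [hsn, one_smul] at this
    exact absurd this (lt_irrefl _)

lemma stab_trivial (hm : ∀ h : H, StrictMono (fun x : UI => h • x))
    (hst : ∀ v : V, Finite (MulAction.stabilizer H v)) {s : H} {v : V} (hs : s • v = v)
    (x : UI) : s • x = x := by
  haveI := hst v
  have h1 : IsOfFinOrder (⟨s, hs⟩ : MulAction.stabilizer H v) := isOfFinOrder_of_finite _
  have h2 : IsOfFinOrder s := by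
    have := (MulAction.stabilizer H v).subtype.isOfFinOrder h1
    simpa using this
  exact torsion_trivial hm s h2 x

lemma smul_eq_of_smul_eq (hm : ∀ h : H, StrictMono (fun x : UI => h • x))
    (hst : ∀ v : V, Finite (MulAction.stabilizer H v)) {a b : H} {v : V} (h : a • v = b • v)
    (x : UI) : a • x = b • x := by
  have h1 : (b⁻¹ * a) • v = v := by rw [mul_smul, h, inv_smul_smul]
  have h2 := stab_trivial hm hst h1 x
  rw [mul_smul, inv_smul_eq_iff] at h2
  exact h2

/-- the equivariant map with prescribed values on the representatives -/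
noncomputable def pos (x : Ty H V → UI) (v : V) : UI := frame H v • x (typ H v)

lemma pos_smul (hm : ∀ h : H, StrictMono (fun x : UI => h • x))
    (hst : ∀ v : V, Finite (MulAction.stabilizer H v)) (x : Ty H V → UI) (h : H) (v : V) :
    pos x (h • v) = h • pos x v := by
  unfold pos
  rw [typ_smul, ← mul_smul]
  apply smul_eq_of_smul_eq hm hst (v := rep (typ H v))
  rw [mul_smul, frame_smul]
  have := frame_smul (H := H) (h • v)
  rw [typ_smul] at this
  exact this

lemma pos_rep (hm : ∀ h : H, StrictMono (fun x : UI => h • x))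
    (hst : ∀ v : V, Finite (MulAction.stabilizer H v)) (x : Ty H V → UI) (o : Ty H V) :
    pos x (rep o) = x o := by
  unfold pos
  rw [typ_rep]
  have : frame H (rep o) • rep o = (1:H) • rep o := by
    rw [one_smul]
    have := frame_smul (H := H) (rep o)
    rw [typ_rep] at this
    exact this
  rw [smul_eq_of_smul_eq hm hst this, one_smul]

lemma frame_smul_pos (x : Ty H V → UI) (v : V) : (frame H v)⁻¹ • pos x v = x (typ H v) := by
  unfold pos
  rw [inv_smul_smul]

lemma frame_inv_smul (hm : ∀ h : H, StrictMono (fun x : UI => h • x))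
    (hst : ∀ v : V, Finite (MulAction.stabilizer H v)) (h : H) (v : V) (y : UI) :
    (frame H (h • v))⁻¹ • h • y = (frame H v)⁻¹ • y := by
  rw [← mul_smul]
  apply smul_eq_of_smul_eq hm hst (v := v)
  rw [mul_smul]
  have h1 : (frame H (h • v))⁻¹ • (h • v) = rep (typ H v) := by
    rw [inv_smul_eq_iff]
    have := frame_smul (H := H) (h • v)
    rw [typ_smul] at this
    exact this.symm
  have h2 : (frame H v)⁻¹ • v = rep (typ H v) := by
    rw [inv_smul_eq_iff, frame_smul]
  rw [h1, h2]

lemma smul_lt_smul_iff' (hm : ∀ h : H, StrictMono (fun x : UI => h • x)) (h : H) {a b : UI} :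
    h • a < h • b ↔ a < b := (hm h).lt_iff_lt

lemma smul_one_UI (hm : ∀ h : H, StrictMono (fun x : UI => h • x)) (h : H) :
    h • (1 : UI) = 1 := by
  apply le_antisymm
  · exact Subtype.mk_le_mk.2 (h • (1:UI)).2.2
  · have h1 : h⁻¹ • (1 : UI) ≤ 1 := Subtype.mk_le_mk.2 (h⁻¹ • (1:UI)).2.2
    have h2 := (hm h).monotone h1
    simpa using h2

lemma smul_zero_UI (hm : ∀ h : H, StrictMono (fun x : UI => h • x)) (h : H) :
    h • (0 : UI) = 0 := by
  apply le_antisymm
  · have h1 : (0 : UI) ≤ h⁻¹ • (0 : UI) := Subtype.mk_le_mk.2 (h⁻¹ • (0:UI)).2.1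
    have h2 := (hm h).monotone h1
    simpa using h2
  · exact Subtype.mk_le_mk.2 (h • (0:UI)).2.1

end act

end LGap
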