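import Pool.Agent.LGap.Minimal

/-! # The energy inequality and the conclusion -/

open MulAction Filter Topology

namespace LGap

variable {H V : Type*} [Group H] [MulAction H V]
variable {W : V → V → V → ℝ}

/-- the pairs of the link -/
noncomputable def lp (hW : Cx H W) (v : V) : Finset (V × V) := (hW.fin v).toFinset

lemma mem_lp (hW : Cx H W) {v : V} {q : V × V} : q ∈ lp hW v ↔ W v q.1 q.2 ≠ 0 := by
  simp [lp]

lemma finsum_lp (hW : Cx H W) (v : V) (f : V × V → ℝ) :
    ∑ᶠ q : V × V, W v q.1 q.2 * f q = ∑ q ∈ lp hW v, W v q.1 q.2 * f q := by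
  apply finsum_eq_sum_of_support_subset
  intro q hq
  simp only [Function.mem_support, ne_eq, mul_eq_zero, not_or] at hq
  exact (mem_lp hW).2 hq.1

variable [Fintype (Ty H V)]

/-- sum over the triangles modulo the group -/
noncomputable def S3 (hW : Cx H W) (Φ : V → V → V → ℝ) : ℝ :=
  ∑ o : Ty H V, cw o * ∑ q ∈ lp hW (rep o), W (rep o) q.1 q.2 * Φ (rep o) q.1 q.2

lemma S3_congr (hW : Cx H W) {Φ Ψ : V → V → V → ℝ} (h : ∀ v u w, Φ v u w = Ψ v u w) :
    S3 hW Φ = S3 hW Ψ := by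
  unfold S3
  simp only [h]

lemma S3_add (hW : Cx H W) (Φ Ψ : V → V → V → ℝ) :
    S3 hW (fun v u w => Φ v u w + Ψ v u w) = S3 hW Φ + S3 hW Ψ := by
  unfold S3
  simp only [mul_add, Finset.sum_add_distrib]

lemma S3_smul (hW : Cx H W) (c : ℝ) (Φ : V → V → V → ℝ) :
    S3 hW (fun v u w => c * Φ v u w) = c * S3 hW Φ := by
  unfold S3
  simp only [Finset.mul_sum]
  apply Finset.sum_congr rfl
  intro o _
  apply Finset.sum_congr rfl
  intro q _
  ring

lemma S3_le (hW : Cx H W) (hst : ∀ v : V, Finite (MulAction.stabilizer H v))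
    {Φ Ψ : V → V → V → ℝ} (h : ∀ v u w, W v u w ≠ 0 → Φ v u w ≤ Ψ v u w) :
    S3 hW Φ ≤ S3 hW Ψ := by
  unfold S3
  apply Finset.sum_le_sum
  intro o _
  apply mul_le_mul_of_nonneg_left _ (cw_pos hst o).le
  apply Finset.sum_le_sum
  intro q hq
  exact mul_le_mul_of_nonneg_left (h _ _ _ ((mem_lp hW).1 hq)) (hW.nonneg _ _ _)

lemma S3_swap23 (hW : Cx H W) (Φ : V → V → V → ℝ) :
    S3 hW Φ = S3 hW (fun v u w => Φ v w u) := by
  unfold S3
  apply Finset.sum_congr rfl
  intro o _
  congr 1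
  apply Finset.sum_nbij' (i := Prod.swap) (j := Prod.swap)
  · intro q hq
    rw [mem_lp] at hq ⊢
    rw [Prod.fst_swap, Prod.snd_swap, ← hW.swap23]
    exact hq
  · intro q hq
    rw [mem_lp] at hq ⊢
    rw [Prod.fst_swap, Prod.snd_swap, ← hW.swap23]
    exact hq
  · intro q _; simp
  · intro q _; simp
  · intro q _
    rw [Prod.fst_swap, Prod.snd_swap, hW.swap23]

lemma S3_swap12 (hW : Cx H W) (hst : ∀ v : V, Finite (MulAction.stabilizer H v))
    (Φ : V → V → V → ℝ) (hinv : ∀ (h : H) v u w, Φ (h • v) (h • u) (h • w) = Φ v u w) :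
    S3 hW Φ = S3 hW (fun v u w => Φ u v w) := by
  have hrow : ∀ (Ψ : V → V → V → ℝ) (v : V), ∑ q ∈ lp hW v, W v q.1 q.2 * Ψ v q.1 q.2
      = ∑ᶠ u, ∑ᶠ w, W v u w * Ψ v u w := by
    intro Ψ v
    rw [← finsum_lp hW v (fun q => Ψ v q.1 q.2)]
    rw [finsum_curry]
    apply (hW.fin v).subset
    intro q hq
    simp only [Function.mem_support, ne_eq, mul_eq_zero, not_or] at hq
    exact hq.1
  have hsupp : ∀ (Ψ : V → V → V → ℝ) (v u : V), ∑ᶠ w, W v u w * Ψ v u w ≠ 0 →
      em W v u ≠ 0 := by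
    intro Ψ v u h
    by_contra hcon
    apply h
    have h1 : ∀ w, W v u w = 0 := by
      intro w
      by_contra h2
      exact em_ne_zero hW h2 hcon
    rw [finsum_congr (fun w => by rw [h1 w, zero_mul]), finsum_zero]
  have hmt := massTransport hst (fun v u => ∑ᶠ w, W v u w * Φ v u w)
    (fun h v u => by
      show ∑ᶠ w, W (h • v) (h • u) w * Φ (h • v) (h • u) w = ∑ᶠ w, W v u w * Φ v u w
      rw [← finsum_comp_equiv (MulAction.toPerm h)]
      apply finsum_congr
      intro w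
      simp only [MulAction.toPerm_apply]
      rw [hW.inv, hinv])
    (fun v => (fin_nbr hW v).subset (fun u hu => hsupp Φ v u hu))
    (fun v => (fin_nbr hW v).subset (fun u hu => by
      have := hsupp Φ u v hu
      show em W v u ≠ 0
      rw [em_symm hW]
      exact this))
  unfold S3
  have h2 : ∀ o : Ty H V, ∑ q ∈ lp hW (rep o), W (rep o) q.1 q.2 * Φ (rep o) q.1 q.2
      = ∑ᶠ u, ∑ᶠ w, W (rep o) u w * Φ (rep o) u w := fun o => hrow Φ (rep o)
  have h3 : ∀ o : Ty H V, ∑ q ∈ lp hW (rep o), W (rep o) q.1 q.2 * Φ q.1 (rep o) q.2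
      = ∑ᶠ u, ∑ᶠ w, W u (rep o) w * Φ u (rep o) w := by
    intro o
    rw [hrow (fun v u w => Φ u v w) (rep o)]
    apply finsum_congr
    intro u
    apply finsum_congr
    intro w
    rw [hW.swap12]
  simp only [h2, h3]
  exact hmt

/-- the energy inequality for a balanced antisymmetric invariant function -/
theorem energy_zero (hW : Cx H W) (hst : ∀ v : V, Finite (MulAction.stabilizer H v))
    {lam : ℝ} (hlam : 2 / 3 < lam)
    (hgap : ∀ (v : V) (f : V → ℝ), ∑ q ∈ lp hW v, W v q.1 q.2 * f q.1 = 0 →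
      2 * lam * ∑ q ∈ lp hW v, W v q.1 q.2 * f q.1 ^ 2 ≤
        ∑ q ∈ lp hW v, W v q.1 q.2 * (f q.1 - f q.2) ^ 2)
    (D : V → V → ℝ) (hinv : ∀ (h : H) v w, D (h • v) (h • w) = D v w)
    (hanti : ∀ v w, D w v = - D v w)
    (hbal : ∀ o : Ty H V, ∑ q ∈ lp hW (rep o), W (rep o) q.1 q.2 * D (rep o) q.1 = 0)
    (htri : ∀ v u w, W v u w ≠ 0 →
      3 * (D v u + D u w + D w v) ^ 2 ≤ D v u ^ 2 + D u w ^ 2 + D w v ^ 2) :
    ∀ v u, em W v u ≠ 0 → D v u = 0 := by
  set N := S3 hW (fun v u _ => D v u ^ 2) with hN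
  set X := S3 hW (fun v u w => D v u * D v w) with hX
  have hI1 : S3 hW (fun v _ w => D v w ^ 2) = N := by
    rw [hN]
    exact (S3_swap23 hW (fun v u _ => D v u ^ 2)).symm
  have hI2 : S3 hW (fun _ u w => D u w ^ 2) = N := by
    rw [S3_swap12 hW hst (fun _ u w => D u w ^ 2) (fun h v u w => by simp only [hinv])]
    exact hI1
  have hI3 : S3 hW (fun v _ w => D w v ^ 2) = N := by
    rw [← hI1]
    apply S3_congr
    intro v u w
    rw [hanti v w]
    ring
  have hC1 : S3 hW (fun v u w => D v u * D u w) = - X := by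
    rw [S3_swap12 hW hst (fun v u w => D v u * D u w) (fun h v u w => by simp only [hinv])]
    rw [hX, neg_eq_neg_one_mul, ← S3_smul]
    apply S3_congr
    intro v u w
    rw [hanti v u]
    ring
  have hC3 : S3 hW (fun v u w => D w v * D v u) = - X := by
    rw [hX, neg_eq_neg_one_mul, ← S3_smul]
    apply S3_congr
    intro v u w
    rw [hanti v w]
    ring
  have hC2 : S3 hW (fun v u w => D u w * D w v) = - X := by
    rw [S3_swap23 hW (fun v u w => D u w * D w v)]
    rw [S3_swap12 hW hst (fun v u w => D w u * D u v) (fun h v u w => by simp only [hinv])]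
    exact hC3
  have hdD : S3 hW (fun v u w => (D v u + D u w + D w v) ^ 2) = 3 * N - 6 * X := by
    have h1 : S3 hW (fun v u w => (D v u + D u w + D w v) ^ 2)
        = S3 hW (fun v u w => (D v u ^ 2 + D u w ^ 2 + D w v ^ 2)
          + 2 * (D v u * D u w + D u w * D w v + D w v * D v u)) := by
      apply S3_congr
      intro v u w
      ring
    rw [h1, S3_add, S3_smul, S3_add, S3_add, S3_add, S3_add, hC1, hC2, hC3, hI2, hI3, ← hN]
    ring
  have h3 : S3 hW (fun v u w => (D v u + D u w + D w v) ^ 2) ≤ N := by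
    have h4 : S3 hW (fun v u w => (D v u + D u w + D w v) ^ 2)
        ≤ S3 hW (fun v u w => (1 / 3) * (D v u ^ 2 + D u w ^ 2 + D w v ^ 2)) := by
      apply S3_le hW hst
      intro v u w h
      have := htri v u w h
      linarith
    rw [S3_smul, S3_add, S3_add, hI2, hI3, ← hN] at h4
    linarith
  have h5 : 2 * lam * N ≤ 2 * N - 2 * X := by
    have h6 : S3 hW (fun v u w => (D v u - D v w) ^ 2) = 2 * N - 2 * X := by
      have h7 : S3 hW (fun v u w => (D v u - D v w) ^ 2)
          = S3 hW (fun v u w => (D v u ^ 2 + D v w ^ 2) + (-2) * (D v u * D v w)) := by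
        apply S3_congr
        intro v u w
        ring
      rw [h7, S3_add, S3_smul, S3_add, hI1, ← hN, ← hX]
      ring
    rw [← h6, hN]
    unfold S3
    rw [Finset.mul_sum]
    apply Finset.sum_le_sum
    intro o _
    have h8 := hgap (rep o) (fun u => D (rep o) u) (hbal o)
    have h9 := cw_pos hst o
    calc 2 * lam * (cw o * ∑ q ∈ lp hW (rep o), W (rep o) q.1 q.2 * D (rep o) q.1 ^ 2)
        = cw o * (2 * lam * ∑ q ∈ lp hW (rep o), W (rep o) q.1 q.2 * D (rep o) q.1 ^ 2) := by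
          ring
      _ ≤ cw o * ∑ q ∈ lp hW (rep o), W (rep o) q.1 q.2 * (D (rep o) q.1 - D (rep o) q.2) ^ 2 :=
          mul_le_mul_of_nonneg_left h8 h9.le
  have hNnn : 0 ≤ N := by
    rw [hN]
    unfold S3
    apply Finset.sum_nonneg
    intro o _
    apply mul_nonneg (cw_pos hst o).le
    apply Finset.sum_nonneg
    intro q _
    exact mul_nonneg (hW.nonneg _ _ _) (sq_nonneg _)
  have hN0 : N = 0 := by
    rw [hdD] at h3
    nlinarith
  -- vanishing
  have hterm : ∀ o : Ty H V, ∀ q ∈ lp hW (rep o),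
      W (rep o) q.1 q.2 * D (rep o) q.1 ^ 2 = 0 := by
    intro o
    rw [hN] at hN0
    unfold S3 at hN0
    have h1 := (Finset.sum_eq_zero_iff_of_nonneg (fun o _ => mul_nonneg (cw_pos hst o).le
      (Finset.sum_nonneg (fun q _ => mul_nonneg (hW.nonneg _ _ _) (sq_nonneg _))))).1 hN0 o
      (Finset.mem_univ _)
    have h2 : ∑ q ∈ lp hW (rep o), W (rep o) q.1 q.2 * D (rep o) q.1 ^ 2 = 0 := by
      rcases mul_eq_zero.1 h1 with h | h
      · exact absurd h (cw_pos hst o).ne'
      · exact h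
    exact (Finset.sum_eq_zero_iff_of_nonneg (fun q _ => mul_nonneg (hW.nonneg _ _ _)
      (sq_nonneg _))).1 h2
  intro v u hvu
  have hrep : ∀ u', em W (rep (typ H v)) u' ≠ 0 → D (rep (typ H v)) u' = 0 := by
    intro u' hu'
    obtain ⟨w, hw⟩ := (em_ne_zero_iff hW).1 hu'
    have h1 := hterm (typ H v) (u', w) ((mem_lp hW).2 hw)
    rcases mul_eq_zero.1 h1 with h | h
    · exact absurd h hw
    · exact pow_eq_zero_iff (two_ne_zero) |>.1 h
  set g := frame H v with hg
  have hgv : g • rep (typ H v) = v := frame_smul v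
  have h1 := hrep (g⁻¹ • u) (by
    rw [← em_smul hW g, hgv, smul_inv_smul]
    exact hvu)
  rw [← hinv g, hgv, smul_inv_smul] at h1
  exact h1

end LGap
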