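import Pool.Agent.LGap.Approx

/-! # Exactly balanced positions with ties -/

open MulAction Filter Topology

namespace LGap

variable {H V : Type*} [Group H] [MulAction H V] [MulAction H UI]
variable {W : V → V → V → ℝ}

lemma cl_eq_one {ε a b : ℝ} (hε : 0 < ε) (h : ε ≤ b - a) : cl ε a b = 1 := by
  unfold cl
  have h1 : 1 ≤ (b - a) / ε := by rw [le_div_iff₀ hε]; linarith
  rw [min_eq_left h1]
  norm_num

/-- limits along an ultrafilter of bounded real sequences -/
lemma exists_ulim (U : Ultrafilter ℕ) (f : ℕ → ℝ) (h1 : ∀ n, -1 ≤ f n) (h2 : ∀ n, f n ≤ 1) :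
    ∃ L : ℝ, Tendsto f U (𝓝 L) := by
  have hc : IsCompact (Set.Icc (-1:ℝ) 1) := isCompact_Icc
  have hle : ((U.map f : Ultrafilter ℝ) : Filter ℝ) ≤ 𝓟 (Set.Icc (-1:ℝ) 1) := by
    rw [le_principal_iff]
    exact mem_map.2 (univ_mem' (fun n => ⟨h1 n, h2 n⟩))
  obtain ⟨L, _, hL⟩ := hc.ultrafilter_le_nhds (U.map f) hle
  exact ⟨L, hL⟩

lemma exists_ulim_UI (U : Ultrafilter ℕ) (f : ℕ → UI) : ∃ L : UI, Tendsto f U (𝓝 L) := by
  obtain ⟨L, _, hL⟩ := (isCompact_univ (X := UI)).ultrafilter_le_nhds (U.map f) (by simp)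
  exact ⟨L, hL⟩

/-- the limit of the balanced approximate positions -/
theorem exists_limit [Fintype (Ty H V)] (hW : Cx H W)
    (hm : ∀ h : H, StrictMono (fun x : UI => h • x))
    (hst : ∀ v : V, Finite (MulAction.stabilizer H v))
    (hconn : ∀ v w : V, Relation.ReflTransGen (fun a b => em W a b ≠ 0) v w)
    (o₀ : Ty H V) (c : UI) (hc : c < 1) :
    ∃ (x : Ty H V → UI) (D : V → V → ℝ), x o₀ = c ∧
      (∀ (h : H) v w, D (h • v) (h • w) = D v w) ∧
      (∀ v w, D w v = - D v w) ∧ (∀ v w, D v w ≤ 1) ∧
      (∀ v w, typ H v ≠ typ H w → pos x v < pos x w → D v w = 1) ∧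
      (∀ v w, typ H v = typ H w → D v w = 0) ∧
      ∀ o : Ty H V, ∑ w ∈ nbr hW (rep o), em W (rep o) w * D (rep o) w = 0 := by
  classical
  set idx : Ty H V → ℕ := fun o => (Fintype.equivFin (Ty H V) o : ℕ) with hidxdef
  have hidx : Function.Injective idx := by
    intro a b hab
    exact (Fintype.equivFin (Ty H V)).injective (Fin.ext hab)
  have hex : ∀ n : ℕ, ∃ x : Ty H V → UI, x o₀ = c ∧
      ∀ o, Fl idx hW (1 / ((n:ℝ) + 1)) o x = 0 := by
    intro n
    exact exists_balanced idx hidx hW hm hst hconn (by positivity) o₀ c hc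
  choose xs hx0 hxF using hex
  set U : Ultrafilter ℕ := hyperfilter ℕ with hU
  have hUle : (U : Filter ℕ) ≤ atTop := by
    rw [hU, ← Nat.cofinite_eq_atTop]
    exact hyperfilter_le_cofinite
  have hlimx : ∀ o, ∃ L : UI, Tendsto (fun n => xs n o) U (𝓝 L) := fun o => exists_ulim_UI U _
  choose x hx using hlimx
  set Dn : ℕ → V → V → ℝ := fun n v w => Dc idx (1 / ((n:ℝ) + 1)) (xs n) v w with hDn
  have hlimD : ∀ v w, ∃ L : ℝ, Tendsto (fun n => Dn n v w) U (𝓝 L) := fun v w =>
    exists_ulim U _ (fun n => neg_one_le_Dc _ _ _ _ _) (fun n => Dc_le_one _ _ _ _ _)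
  choose D hD using hlimD
  have hposlim : ∀ v, Tendsto (fun n => pos (xs n) v) U (𝓝 (pos x v)) := by
    intro v
    unfold pos
    exact ((cont_smul hm _).tendsto _).comp (hx _)
  refine ⟨x, D, ?_, ?_, ?_, ?_, ?_, ?_, ?_⟩
  · have h1 : Tendsto (fun n => xs n o₀) U (𝓝 c) := by
      have : (fun n => xs n o₀) = fun _ => c := by
        ext n
        rw [hx0]
      rw [this]
      exact tendsto_const_nhds
    exact tendsto_nhds_unique (hx o₀) h1
  · intro h v w
    have h1 : (fun n => Dn n (h • v) (h • w)) = fun n => Dn n v w := by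
      ext n
      exact Dc_inv idx hm hst _ _ h v w
    have h2 := hD (h • v) (h • w)
    rw [h1] at h2
    exact tendsto_nhds_unique h2 (hD v w)
  · intro v w
    have h1 : (fun n => Dn n w v) = fun n => - Dn n v w := by
      ext n
      exact Dc_anti idx _ _ v w
    have h2 := hD w v
    rw [h1] at h2
    exact tendsto_nhds_unique h2 (hD v w).neg
  · intro v w
    exact le_of_tendsto (hD v w) (Eventually.of_forall (fun n => Dc_le_one _ _ _ _ _))
  · intro v w hvw hlt
    have hone : ∀ᶠ n in (U : Filter ℕ), Dn n v w = 1 := by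
      rcases lt_trichotomy (idx (typ H v)) (idx (typ H w)) with h1 | h1 | h1
      · -- frame of v
        set δ : ℝ := (((frame H v)⁻¹ • pos x w : UI) : ℝ) - ((x (typ H v) : UI) : ℝ) with hδ
        have hδpos : 0 < δ := by
          have := frame_pos_lt hm x hlt
          rw [hδ]; linarith
        have ht1 : Tendsto (fun n => (((frame H v)⁻¹ • pos (xs n) w : UI) : ℝ)
            - ((xs n (typ H v) : UI) : ℝ)) U (𝓝 δ) := by
          apply Tendsto.sub
          · exact (continuous_subtype_val.tendsto _).comp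
              (((cont_smul hm _).tendsto _).comp (hposlim w))
          · exact (continuous_subtype_val.tendsto _).comp (hx _)
        have ht2 : Tendsto (fun n : ℕ => 1 / ((n:ℝ) + 1)) U (𝓝 0) :=
          tendsto_one_div_add_atTop_nhds_zero_nat.mono_left hUle
        have he1 := ht1.eventually (lt_mem_nhds (show δ / 2 < δ by linarith))
        have he2 := ht2.eventually (gt_mem_nhds (show (0:ℝ) < δ / 2 by linarith))
        filter_upwards [he1, he2] with n hn1 hn2
        show Dc idx _ (xs n) v w = 1
        unfold Dc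
        rw [if_pos h1]
        apply cl_eq_one (by positivity)
        linarith
      · exact absurd (hidx h1) hvw
      · set δ : ℝ := ((x (typ H w) : UI) : ℝ) - (((frame H w)⁻¹ • pos x v : UI) : ℝ) with hδ
        have hδpos : 0 < δ := by
          have := frame_pos_gt hm x hlt
          rw [hδ]; linarith
        have ht1 : Tendsto (fun n => ((xs n (typ H w) : UI) : ℝ)
            - (((frame H w)⁻¹ • pos (xs n) v : UI) : ℝ)) U (𝓝 δ) := by
          apply Tendsto.sub
          · exact (continuous_subtype_val.tendsto _).comp (hx _)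
          · exact (continuous_subtype_val.tendsto _).comp
              (((cont_smul hm _).tendsto _).comp (hposlim v))
        have ht2 : Tendsto (fun n : ℕ => 1 / ((n:ℝ) + 1)) U (𝓝 0) :=
          tendsto_one_div_add_atTop_nhds_zero_nat.mono_left hUle
        have he1 := ht1.eventually (lt_mem_nhds (show δ / 2 < δ by linarith))
        have he2 := ht2.eventually (gt_mem_nhds (show (0:ℝ) < δ / 2 by linarith))
        filter_upwards [he1, he2] with n hn1 hn2
        show Dc idx _ (xs n) v w = 1
        unfold Dc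
        rw [if_neg (by omega), if_pos h1]
        have h3 : cl (1 / ((n:ℝ) + 1)) ((xs n (typ H w) : UI) : ℝ)
            (((frame H w)⁻¹ • pos (xs n) v : UI) : ℝ) = -1 := by
          unfold cl
          have hpos : (0:ℝ) < 1 / ((n:ℝ) + 1) := by positivity
          have h4 : ((((frame H w)⁻¹ • pos (xs n) v : UI) : ℝ) - ((xs n (typ H w) : UI) : ℝ))
              / (1 / ((n:ℝ) + 1)) ≤ -1 := by
            rw [div_le_iff₀ hpos]
            linarith
          rw [min_eq_right (by linarith), max_eq_left h4]
        rw [h3, neg_neg]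
    exact tendsto_nhds_unique (hD v w)
      ((tendsto_congr' hone).2 tendsto_const_nhds)
  · intro v w hvw
    have h1 : (fun n => Dn n v w) = fun _ => 0 := by
      ext n
      exact Dc_same idx _ _ v w hvw
    have h2 := hD v w
    rw [h1] at h2
    exact tendsto_nhds_unique h2 tendsto_const_nhds
  · intro o
    have h1 : Tendsto (fun n => ∑ w ∈ nbr hW (rep o), em W (rep o) w * Dn n (rep o) w) U
        (𝓝 (∑ w ∈ nbr hW (rep o), em W (rep o) w * D (rep o) w)) := by
      apply tendsto_finset_sum
      intro w _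
      exact (hD _ _).const_mul _
    have h2 : (fun n => ∑ w ∈ nbr hW (rep o), em W (rep o) w * Dn n (rep o) w)
        = fun _ => 0 := by
      ext n
      exact hxF n o
    rw [h2] at h1
    exact tendsto_nhds_unique tendsto_const_nhds h1 |>.symm

end LGap
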