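import Pool.Agent.LGap.Basic

/-! # Mass transport for proper actions with finitely many orbits -/

open MulAction

namespace LGap

variable {H V : Type*} [Group H] [MulAction H V]

/-- weight of a type: one over the order of the stabilizer -/
noncomputable def cw (o : Ty H V) : ℝ := 1 / (Nat.card (MulAction.stabilizer H (rep o)) : ℝ)

lemma cw_pos (hst : ∀ v : V, Finite (MulAction.stabilizer H v)) (o : Ty H V) : 0 < cw o := by
  have := hst (rep o)
  unfold cw
  have h1 : 0 < Nat.card (MulAction.stabilizer H (rep o)) := Nat.card_pos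
  positivity

/-- the fibres of the orbit map have the size of the stabilizer -/
lemma ncard_fibre (r w : V) (g : H) (hg : g • r = w) :
    {h : H | h • r = w}.ncard = Nat.card (MulAction.stabilizer H r) := by
  have h1 : {h : H | h • r = w} = (fun s : H => g * s) '' (MulAction.stabilizer H r : Set H) := by
    ext h
    simp only [Set.mem_setOf_eq, Set.mem_image, SetLike.mem_coe, MulAction.mem_stabilizer_iff]
    constructor
    · intro hh
      refine ⟨g⁻¹ * h, ?_, by group⟩
      rw [mul_smul, hh, ← hg, inv_smul_smul]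
    · rintro ⟨s, hs, rfl⟩
      rw [mul_smul, hs, hg]
  rw [h1, Set.ncard_image_of_injective _ (mul_right_injective g)]
  rfl

lemma finite_fibre (hst : ∀ v : V, Finite (MulAction.stabilizer H v)) (r w : V) :
    {h : H | h • r = w}.Finite := by
  by_cases hne : ∃ g : H, g • r = w
  · obtain ⟨g, hg⟩ := hne
    apply Set.finite_of_ncard_pos
    rw [ncard_fibre r w g hg]
    have := hst r
    exact Nat.card_pos
  · have : {h : H | h • r = w} = ∅ := by
      ext h
      simp only [Set.mem_setOf_eq, Set.mem_empty_iff_false, iff_false]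
      exact fun hh => hne ⟨h, hh⟩
    rw [this]
    exact Set.finite_empty

lemma finite_support_smul (hst : ∀ v : V, Finite (MulAction.stabilizer H v)) (G : V → ℝ)
    (hG : {w | G w ≠ 0}.Finite) (r : V) : {h : H | G (h • r) ≠ 0}.Finite := by
  have h1 : {h : H | G (h • r) ≠ 0} ⊆ ⋃ w ∈ {w | G w ≠ 0}, {h : H | h • r = w} := by
    intro h hh
    simp only [Set.mem_iUnion, Set.mem_setOf_eq]
    exact ⟨h • r, hh, rfl⟩
  exact (hG.biUnion (fun w _ => finite_fibre hst r w)).subset h1

/-- a sum over the vertices as a weighted sum over the group -/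
lemma sumV [Fintype (Ty H V)] (hst : ∀ v : V, Finite (MulAction.stabilizer H v)) (G : V → ℝ)
    (hG : {w | G w ≠ 0}.Finite) :
    ∑ᶠ w, G w = ∑ o : Ty H V, cw o * ∑ᶠ h : H, G (h • rep o) := by
  classical
  have hsup : Function.support G ⊆ (hG.toFinset : Set V) := by
    intro w hw
    simpa using hw
  rw [finsum_eq_sum_of_support_subset G hsup]
  rw [← Finset.sum_fiberwise (s := hG.toFinset) (g := fun w => typ H w)]
  apply Finset.sum_congr rfl
  intro o _
  set K := (finite_support_smul hst G hG (rep o)).toFinset with hK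
  have hsupK : Function.support (fun h : H => G (h • rep o)) ⊆ (K : Set H) := by
    intro h hh
    simpa [hK] using hh
  rw [finsum_eq_sum_of_support_subset _ hsupK]
  have hmaps : ∀ h ∈ K, h • rep o ∈ hG.toFinset.filter (fun w => typ H w = o) := by
    intro h hh
    simp only [hK, Set.Finite.mem_toFinset, Set.mem_setOf_eq] at hh
    simp only [Finset.mem_filter, Set.Finite.mem_toFinset, Set.mem_setOf_eq, typ_smul, typ_rep,
      and_true]
    exact hh
  rw [← Finset.sum_fiberwise_of_maps_to hmaps, Finset.mul_sum]
  apply Finset.sum_congr rfl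
  intro w hw
  simp only [Finset.mem_filter, Set.Finite.mem_toFinset, Set.mem_setOf_eq] at hw
  have hfw : frame H w • rep o = w := by
    have := frame_smul (H := H) w
    rw [hw.2] at this
    exact this
  have hcard : (K.filter (fun h => h • rep o = w)).card
      = Nat.card (MulAction.stabilizer H (rep o)) := by
    rw [← ncard_fibre (rep o) w (frame H w) hfw, Set.ncard_eq_toFinset_card _
      (finite_fibre hst (rep o) w)]
    congr 1
    ext h
    simp only [hK, Finset.mem_filter, Set.Finite.mem_toFinset, Set.mem_setOf_eq]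
    constructor
    · exact fun hh => hh.2
    · intro hh
      refine ⟨?_, hh⟩
      rw [hh]
      exact hw.1
  have hs : ∑ h ∈ K.filter (fun h => h • rep o = w), G (h • rep o)
      = (Nat.card (MulAction.stabilizer H (rep o)) : ℝ) * G w := by
    rw [← hcard, ← nsmul_eq_mul, ← Finset.sum_const]
    apply Finset.sum_congr rfl
    intro h hh
    rw [(Finset.mem_filter.1 hh).2]
  rw [hs]
  have h1 : (Nat.card (MulAction.stabilizer H (rep o)) : ℝ) ≠ 0 := by
    have := hst (rep o)
    exact_mod_cast (Nat.card_pos (α := MulAction.stabilizer H (rep o))).ne'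
  unfold cw
  field_simp

/-- mass transport -/
lemma massTransport [Fintype (Ty H V)] (hst : ∀ v : V, Finite (MulAction.stabilizer H v))
    (F : V → V → ℝ) (hinv : ∀ (h : H) v w, F (h • v) (h • w) = F v w)
    (hrow : ∀ v, {w | F v w ≠ 0}.Finite) (hcol : ∀ v, {w | F w v ≠ 0}.Finite) :
    ∑ o : Ty H V, cw o * ∑ᶠ w, F (rep o) w = ∑ o : Ty H V, cw o * ∑ᶠ w, F w (rep o) := by
  have h1 : ∀ o : Ty H V, cw o * ∑ᶠ w, F (rep o) w
      = ∑ o' : Ty H V, cw o * cw o' * ∑ᶠ h : H, F (rep o) (h • rep o') := by
    intro o
    rw [sumV hst _ (hrow _), Finset.mul_sum]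
    apply Finset.sum_congr rfl
    intro o' _
    ring
  have h2 : ∀ o : Ty H V, cw o * ∑ᶠ w, F w (rep o)
      = ∑ o' : Ty H V, cw o * cw o' * ∑ᶠ h : H, F (rep o') (h • rep o) := by
    intro o
    rw [sumV hst (fun w => F w (rep o)) (hcol _), Finset.mul_sum]
    apply Finset.sum_congr rfl
    intro o' _
    have h3 : ∑ᶠ h : H, F (h • rep o') (rep o) = ∑ᶠ h : H, F (rep o') (h • rep o) := by
      rw [← finsum_comp_equiv (Equiv.inv H)]
      apply finsum_congr
      intro h
      have := hinv h⁻¹ (h • rep o') (rep o)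
      rw [inv_smul_smul] at this
      simp only [Equiv.inv_apply]
      have h4 := hinv h (h⁻¹ • rep o') (rep o)
      rw [smul_inv_smul] at h4
      exact h4.symm
    rw [h3]
    ring
  rw [Finset.sum_congr rfl (fun o _ => h1 o), Finset.sum_congr rfl (fun o _ => h2 o),
    Finset.sum_comm]
  apply Finset.sum_congr rfl
  intro o _
  apply Finset.sum_congr rfl
  intro o' _
  ring

end LGap
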