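import Pool.Agent.LGap.Final

/-! # The main theorem for actions on the unit interval -/

open MulAction Filter Topology

namespace LGap

variable {H V : Type*} [Group H] [MulAction H V] [MulAction H UI]
variable {W : V → V → V → ℝ} [DecidableEq (Ty H V)] [Fintype (Ty H V)]

/-- the final edge function -/
noncomputable def Df (x : Ty H V → UI) (d : Ty H V → Ty H V → ℝ) (v w : V) : ℝ :=
  if pos x v < pos x w then 1 else if pos x w < pos x v then -1 else d (typ H v) (typ H w)

omit [DecidableEq (Ty H V)] [Fintype (Ty H V)] in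
lemma Df_lt {x : Ty H V → UI} {d : Ty H V → Ty H V → ℝ} {v w : V} (h : pos x v < pos x w) :
    Df x d v w = 1 := by unfold Df; rw [if_pos h]

omit [DecidableEq (Ty H V)] [Fintype (Ty H V)] in
lemma Df_gt {x : Ty H V → UI} {d : Ty H V → Ty H V → ℝ} {v w : V} (h : pos x w < pos x v) :
    Df x d v w = -1 := by unfold Df; rw [if_neg (not_lt.2 h.le), if_pos h]

omit [DecidableEq (Ty H V)] [Fintype (Ty H V)] in
lemma Df_eq {x : Ty H V → UI} {d : Ty H V → Ty H V → ℝ} {v w : V} (h : pos x v = pos x w) :
    Df x d v w = d (typ H v) (typ H w) := by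
  unfold Df; rw [if_neg h.not_lt, if_neg (not_lt.2 h.le)]

omit [DecidableEq (Ty H V)] [Fintype (Ty H V)] in
lemma Df_inv (hm : ∀ h : H, StrictMono (fun x : UI => h • x))
    (hst : ∀ v : V, Finite (MulAction.stabilizer H v)) (x : Ty H V → UI)
    (d : Ty H V → Ty H V → ℝ) (h : H) (v w : V) : Df x d (h • v) (h • w) = Df x d v w := by
  unfold Df
  simp only [pos_smul hm hst, smul_lt_smul_iff' hm, typ_smul]

lemma Df_anti {hW : Cx H W} {x : Ty H V → UI}
    {d : Ty H V → Ty H V → ℝ} (hd : Feas hW x d) (v w : V) : Df x d w v = - Df x d v w := by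
  rcases lt_trichotomy (pos x v) (pos x w) with h | h | h
  · rw [Df_lt h, Df_gt h]
  · rw [Df_eq h, Df_eq h.symm, hd.anti]
  · rw [Df_lt h, Df_gt h, neg_neg]

lemma Df_le {hW : Cx H W} {x : Ty H V → UI}
    {d : Ty H V → Ty H V → ℝ} (hd : Feas hW x d) (v w : V) : Df x d v w ≤ 1 := by
  rcases lt_trichotomy (pos x v) (pos x w) with h | h | h
  · rw [Df_lt h]
  · rw [Df_eq h]; exact hd.le _ _
  · rw [Df_gt h]; norm_num

lemma Df_ge {hW : Cx H W} {x : Ty H V → UI}
    {d : Ty H V → Ty H V → ℝ} (hd : Feas hW x d) (v w : V) : -1 ≤ Df x d v w := by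
  have := Df_le hd w v
  rw [Df_anti hd] at this
  linarith

/-- a tie of adjacent vertices is seen by the tie matrix -/
lemma tM_ne_zero (hW : Cx H W) (hm : ∀ h : H, StrictMono (fun x : UI => h • x))
    (hst : ∀ v : V, Finite (MulAction.stabilizer H v)) (x : Ty H V → UI) {v w : V}
    (hvw : em W v w ≠ 0) (h : pos x v = pos x w) : tM hW x (typ H v) (typ H w) ≠ 0 := by
  set g := frame H v with hg
  have hgv : g • rep (typ H v) = v := frame_smul v
  set w' := g⁻¹ • w with hw'
  have hgw : g • w' = w := by rw [hw', smul_inv_smul]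
  have h1 : em W (rep (typ H v)) w' ≠ 0 := by
    rw [← em_smul hW g, hgv, hgw]; exact hvw
  have h2 : pos x (rep (typ H v)) = pos x w' := by
    apply (hm g).injective
    show g • pos x (rep (typ H v)) = g • pos x w'
    rw [← pos_smul hm hst, ← pos_smul hm hst, hgv, hgw, h]
  have h3 : typ H w' = typ H w := by rw [hw', typ_smul]
  have h4 : em W (rep (typ H v)) w' ≤ tM hW x (typ H v) (typ H w) := by
    unfold tM
    have h5 := Finset.single_le_sum (s := nbr hW (rep (typ H v)))
      (f := fun u => em W (rep (typ H v)) u * (if typ H u = typ H w then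
        (if pos x (rep (typ H v)) = pos x u then (1:ℝ) else 0) else 0))
      (fun u _ => by
        apply mul_nonneg (em_nonneg hW _ _)
        split_ifs <;> norm_num) ((mem_nbr hW).2 h1)
    have h7 : em W (rep (typ H v)) w' * (if typ H w' = typ H w then
        (if pos x (rep (typ H v)) = pos x w' then (1:ℝ) else 0) else 0)
        = em W (rep (typ H v)) w' := by rw [if_pos h3, if_pos h2, mul_one]
    calc em W (rep (typ H v)) w' = _ := h7.symm
      _ ≤ _ := h5
  have h6 : 0 < em W (rep (typ H v)) w' := lt_of_le_of_ne (em_nonneg hW _ _) (Ne.symm h1)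
  linarith

/-- numerical lemma -/
lemma num_tri {α β γ : ℝ} (ha : α ≤ 1) (hb : β ≤ 1) (hc : γ ≤ 1) (ha' : -1 ≤ α) (hb' : -1 ≤ β)
    (hc' : -1 ≤ γ) (h1 : -1 < α → -1 < β → -1 < γ → α + β + γ ≤ 0)
    (h2 : α < 1 → β < 1 → γ < 1 → 0 ≤ α + β + γ) :
    3 * (α + β + γ) ^ 2 ≤ α ^ 2 + β ^ 2 + γ ^ 2 := by
  have key : ∀ p q : ℝ, p ≤ 1 → q ≤ 1 → 0 < p + q - 1 →
      3 * (p + q - 1) ^ 2 ≤ p ^ 2 + q ^ 2 + 1 := by
    intro p q hp hq hpq
    nlinarith [sq_nonneg (p - q), mul_nonneg (sub_nonneg.2 hp) (sub_nonneg.2 hq),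
      mul_nonneg (sub_nonneg.2 hp) hpq.le, mul_nonneg (sub_nonneg.2 hq) hpq.le]
  rcases lt_trichotomy (α + β + γ) 0 with h | h | h
  · -- negative sum: some entry equals 1
    have h3 : α = 1 ∨ β = 1 ∨ γ = 1 := by
      by_contra hcon
      push Not at hcon
      obtain ⟨n1, n2, n3⟩ := hcon
      have := h2 (lt_of_le_of_ne ha n1) (lt_of_le_of_ne hb n2) (lt_of_le_of_ne hc n3)
      linarith
    rcases h3 with rfl | rfl | rfl
    · have := key (-β) (-γ) (by linarith) (by linarith) (by linarith)
      nlinarith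
    · have := key (-α) (-γ) (by linarith) (by linarith) (by linarith)
      nlinarith
    · have := key (-α) (-β) (by linarith) (by linarith) (by linarith)
      nlinarith
  · rw [h]
    nlinarith [sq_nonneg α, sq_nonneg β, sq_nonneg γ]
  · have h3 : α = -1 ∨ β = -1 ∨ γ = -1 := by
      by_contra hcon
      push Not at hcon
      obtain ⟨n1, n2, n3⟩ := hcon
      have := h1 (lt_of_le_of_ne ha' (Ne.symm n1)) (lt_of_le_of_ne hb' (Ne.symm n2))
        (lt_of_le_of_ne hc' (Ne.symm n3))
      linarith
    rcases h3 with rfl | rfl | rfl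
    · have := key β γ hb hc (by linarith)
      nlinarith
    · have := key α γ ha hc (by linarith)
      nlinarith
    · have := key α β ha hb (by linarith)
      nlinarith

/-- **Main theorem** for an action on the unit interval -/
theorem main (hW : Cx H W)
    (hm : ∀ h : H, StrictMono (fun x : UI => h • x))
    (hst : ∀ v : V, Finite (MulAction.stabilizer H v))
    (hconn : ∀ v w : V, Relation.ReflTransGen (fun a b => em W a b ≠ 0) v w)
    {lam : ℝ} (hlam : 2 / 3 < lam)
    (hgap : ∀ (v : V) (f : V → ℝ), ∑ q ∈ lp hW v, W v q.1 q.2 * f q.1 = 0 →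
      2 * lam * ∑ q ∈ lp hW v, W v q.1 q.2 * f q.1 ^ 2 ≤
        ∑ q ∈ lp hW v, W v q.1 q.2 * (f q.1 - f q.2) ^ 2)
    (o₀ : Ty H V) (c : UI) (h : H) : h • c = c := by
  by_cases hc : c < 1
  swap
  · have h1 : c = 1 := le_antisymm (Subtype.mk_le_mk.2 c.2.2) (not_lt.1 hc)
    rw [h1, smul_one_UI hm]
  obtain ⟨x, d₀, hx0, hd₀⟩ := exists_feas hW hm hst hconn o₀ c hc
  obtain ⟨d, hd, hmin⟩ := exists_min hW x ⟨d₀, hd₀⟩
  have hbal : ∀ o : Ty H V, ∑ q ∈ lp hW (rep o), W (rep o) q.1 q.2 * Df x d (rep o) q.1 = 0 := by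
    intro o
    rw [← finsum_lp hW (rep o) (fun q => Df x d (rep o) q.1),
      pairs_fst hW (rep o) (fun u => Df x d (rep o) u), finsum_em hW]
    have h1 := hd.flux o
    have h2 : ∑ j, tM hW x o j * d o j = ∑ w ∈ nbr hW (rep o), em W (rep o) w *
        (if pos x (rep o) = pos x w then d o (typ H w) else 0) := by
      unfold tM
      simp only [Finset.sum_mul]
      rw [Finset.sum_comm]
      apply Finset.sum_congr rfl
      intro w _
      by_cases h3 : pos x (rep o) = pos x w
      · simp only [if_pos h3]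
        rw [Finset.sum_eq_single (typ H w)]
        · simp
        · intro b _ hb
          rw [if_neg (Ne.symm hb)]; ring
        · intro h4; exact absurd (Finset.mem_univ _) h4
      · simp only [if_neg h3, ite_self, mul_zero, zero_mul, Finset.sum_const_zero]
    rw [h2] at h1
    unfold xF at h1
    rw [← Finset.sum_add_distrib] at h1
    rw [← h1]
    apply Finset.sum_congr rfl
    intro w _
    rw [← mul_add]
    congr 1
    rcases lt_trichotomy (pos x (rep o)) (pos x w) with h3 | h3 | h3
    · rw [Df_lt h3, if_pos h3, if_neg h3.ne, add_zero]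
    · rw [Df_eq h3, if_neg h3.not_lt, if_neg (not_lt.2 h3.le), if_pos h3, zero_add, typ_rep]
    · rw [Df_gt h3, if_neg (not_lt.2 h3.le), if_pos h3, if_neg h3.ne', add_zero]
  have htri : ∀ v u w, W v u w ≠ 0 →
      3 * (Df x d v u + Df x d u w + Df x d w v) ^ 2
        ≤ Df x d v u ^ 2 + Df x d u w ^ 2 + Df x d w v ^ 2 := by
    intro v u w hvuw
    have evu : em W v u ≠ 0 := em_ne_zero hW hvuw
    have euw : em W u w ≠ 0 := em_ne_zero hW (u := v) (by
      rw [hW.swap23, hW.swap12]
      exact hvuw)
    have ewv : em W w v ≠ 0 := em_ne_zero hW (u := u) (by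
      rw [hW.swap12, hW.swap23]
      exact hvuw)
    apply num_tri (Df_le hd _ _) (Df_le hd _ _) (Df_le hd _ _) (Df_ge hd _ _) (Df_ge hd _ _)
      (Df_ge hd _ _)
    · intro n1 n2 n3
      rcases lt_trichotomy (pos x v) (pos x u) with h1 | h1 | h1
      · -- v < u
        rcases lt_trichotomy (pos x u) (pos x w) with h2 | h2 | h2
        · have h3 : pos x v < pos x w := h1.trans h2
          rw [Df_gt h3] at n3
          exact absurd n3 (lt_irrefl _)
        · have h3 : pos x v < pos x w := h2 ▸ h1
          rw [Df_gt h3] at n3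
          exact absurd n3 (lt_irrefl _)
        · rw [Df_gt h2] at n2
          exact absurd n2 (lt_irrefl _)
      · rcases lt_trichotomy (pos x u) (pos x w) with h2 | h2 | h2
        · have h3 : pos x v < pos x w := h1 ▸ h2
          rw [Df_gt h3] at n3
          exact absurd n3 (lt_irrefl _)
        · -- all tied
          rw [Df_eq h1] at n1 ⊢
          rw [Df_eq h2] at n2 ⊢
          rw [Df_eq (h1.trans h2).symm] at n3 ⊢
          exact min_circ hW hm hst x d hd hmin _ _ _ (tM_ne_zero hW hm hst x evu h1)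
            (tM_ne_zero hW hm hst x euw h2) (tM_ne_zero hW hm hst x ewv (h1.trans h2).symm)
            n1 n2 n3
        · rw [Df_gt h2] at n2
          exact absurd n2 (lt_irrefl _)
      · rw [Df_gt h1] at n1
        exact absurd n1 (lt_irrefl _)
    · intro n1 n2 n3
      rcases lt_trichotomy (pos x v) (pos x u) with h1 | h1 | h1
      · rw [Df_lt h1] at n1
        exact absurd n1 (lt_irrefl _)
      · rcases lt_trichotomy (pos x u) (pos x w) with h2 | h2 | h2
        · rw [Df_lt h2] at n2
          exact absurd n2 (lt_irrefl _)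
        · rw [Df_eq h1] at n1 ⊢
          rw [Df_eq h2] at n2 ⊢
          rw [Df_eq (h1.trans h2).symm] at n3 ⊢
          have a1 := hd.anti (typ H v) (typ H u)
          have a2 := hd.anti (typ H u) (typ H w)
          have a3 := hd.anti (typ H w) (typ H v)
          have h4 := min_circ hW hm hst x d hd hmin (typ H u) (typ H v) (typ H w)
            (tM_ne_zero hW hm hst x (by rw [em_symm hW]; exact evu) h1.symm)
            (tM_ne_zero hW hm hst x (by rw [em_symm hW]; exact ewv) (h1.trans h2))
            (tM_ne_zero hW hm hst x (by rw [em_symm hW]; exact euw) h2.symm)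
            (by rw [a1]; linarith) (by rw [a3]; linarith) (by rw [a2]; linarith)
          rw [a1, a2, a3] at h4
          linarith
        · have h3 : pos x w < pos x v := h1 ▸ h2
          rw [Df_lt h3] at n3
          exact absurd n3 (lt_irrefl _)
      · rcases lt_trichotomy (pos x u) (pos x w) with h2 | h2 | h2
        · rw [Df_lt h2] at n2
          exact absurd n2 (lt_irrefl _)
        · have h3 : pos x w < pos x v := h2 ▸ h1
          rw [Df_lt h3] at n3
          exact absurd n3 (lt_irrefl _)
        · have h3 : pos x w < pos x v := h2.trans h1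
          rw [Df_lt h3] at n3
          exact absurd n3 (lt_irrefl _)
  have hzero := energy_zero hW hst hlam hgap (Df x d) (Df_inv hm hst x d) (Df_anti hd) hbal htri
  have hadj : ∀ v w, em W v w ≠ 0 → pos x v = pos x w := by
    intro v w hvw
    have h0 := hzero v w hvw
    rcases lt_trichotomy (pos x v) (pos x w) with h1 | h1 | h1
    · rw [Df_lt h1] at h0; norm_num at h0
    · exact h1
    · rw [Df_gt h1] at h0; norm_num at h0
  have hall : ∀ v w : V, pos x v = pos x w := by
    intro v w
    have := hconn v w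
    induction this with
    | refl => rfl
    | tail _ hbc ih => exact ih.trans (hadj _ _ hbc)
  have h1 := hall (h • rep o₀) (rep o₀)
  rw [pos_smul hm hst, pos_rep hm hst, hx0] at h1
  exact h1

end LGap
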