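import Pool.Agent.LGap.Ties

/-! # The feasible matrix of least energy -/

open MulAction Filter Topology

namespace LGap

variable {H V : Type*} [Group H] [MulAction H V] [MulAction H UI]
variable {W : V → V → V → ℝ} [DecidableEq (Ty H V)] [Fintype (Ty H V)]

lemma Feas.ge {hW : Cx H W} {x : Ty H V → UI} {d : Ty H V → Ty H V → ℝ} (h : Feas hW x d)
    (i j : Ty H V) : -1 ≤ d i j := by
  have h1 := h.le j i
  rw [h.anti i j] at h1
  linarith

/-- energy -/
noncomputable def En (hW : Cx H W) (x : Ty H V → UI) (d : Ty H V → Ty H V → ℝ) : ℝ :=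
  ∑ i, ∑ j, cw i * tM hW x i j * (d i j) ^ 2

lemma exists_min (hW : Cx H W) (x : Ty H V → UI) (hne : ∃ d, Feas hW x d) :
    ∃ d, Feas hW x d ∧ ∀ d', Feas hW x d' → En hW x d ≤ En hW x d' := by
  set K : Set (Ty H V → Ty H V → ℝ) := {d | Feas hW x d} with hK
  have hKc : IsCompact K := by
    have hbig : IsCompact (Set.pi Set.univ (fun _ : Ty H V =>
        Set.pi Set.univ (fun _ : Ty H V => Set.Icc (-1:ℝ) 1))) :=
      isCompact_univ_pi (fun _ => isCompact_univ_pi (fun _ => isCompact_Icc))
    apply hbig.of_isClosed_subset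
    · have h1 : K = (⋂ i, ⋂ j, {d | d j i = - d i j}) ∩ (⋂ i, ⋂ j, {d | d i j ≤ 1}) ∩
          (⋂ i, {d : Ty H V → Ty H V → ℝ | xF hW x i + ∑ j, tM hW x i j * d i j = 0}) := by
        ext d
        simp only [hK, Set.mem_setOf_eq, Set.mem_inter_iff, Set.mem_iInter]
        constructor
        · intro h
          exact ⟨⟨h.anti, h.le⟩, h.flux⟩
        · rintro ⟨⟨h1, h2⟩, h3⟩
          exact ⟨h1, h2, h3⟩
      rw [h1]
      have hap : ∀ i j : Ty H V, Continuous (fun d : Ty H V → Ty H V → ℝ => d i j) :=
        fun i j => (continuous_apply j).comp (continuous_apply i)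
      apply IsClosed.inter
      · apply IsClosed.inter
        · exact isClosed_iInter (fun i => isClosed_iInter (fun j =>
            isClosed_eq (hap j i) (hap i j).neg))
        · exact isClosed_iInter (fun i => isClosed_iInter (fun j =>
            isClosed_le (hap i j) continuous_const))
      · apply isClosed_iInter
        intro i
        apply isClosed_eq _ continuous_const
        apply continuous_const.add
        apply continuous_finset_sum
        intro j _
        exact continuous_const.mul (hap i j)
    · intro d hd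
      simp only [Set.mem_pi, Set.mem_univ, true_implies]
      intro i j
      exact ⟨Feas.ge hd i j, Feas.le hd i j⟩
  have hcont : Continuous (fun d : Ty H V → Ty H V → ℝ => En hW x d) := by
    unfold En
    apply continuous_finset_sum
    intro i _
    apply continuous_finset_sum
    intro j _
    exact continuous_const.mul (((continuous_apply j).comp (continuous_apply i)).pow 2)
  obtain ⟨d, hd, hmin⟩ := hKc.exists_isMinOn hne hcont.continuousOn
  exact ⟨d, hd, fun d' hd' => hmin hd'⟩

omit [MulAction H UI] [Fintype (Ty H V)] in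
/-- indicator of equality -/
noncomputable def dl (a b : Ty H V) : ℝ := if a = b then 1 else 0

omit [MulAction H UI] [Fintype (Ty H V)] in
lemma dl_nonneg (a b : Ty H V) : 0 ≤ dl a b := by unfold dl; split_ifs <;> norm_num

omit [MulAction H UI] in
lemma sum_dl (a : Ty H V) (f : Ty H V → ℝ) : ∑ k, dl k a * f k = f a := by
  unfold dl
  simp

/-- the circulation along a triangle of types -/
noncomputable def circ (a b e : ℝ) (i j l k k' : Ty H V) : ℝ :=
  (dl k i * dl k' j - dl k j * dl k' i) / a + (dl k j * dl k' l - dl k l * dl k' j) / b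
    + (dl k l * dl k' i - dl k i * dl k' l) / e

omit [MulAction H UI] [Fintype (Ty H V)] in
lemma circ_anti (a b e : ℝ) (i j l k k' : Ty H V) :
    circ a b e i j l k' k = - circ a b e i j l k k' := by
  unfold circ
  ring

omit [MulAction H UI] in
lemma sum_circ (a b e : ℝ) (i j l : Ty H V) (f : Ty H V → Ty H V → ℝ) :
    ∑ k, ∑ k', f k k' * circ a b e i j l k k'
      = (f i j - f j i) / a + (f j l - f l j) / b + (f l i - f i l) / e := by
  have key : ∀ p q : Ty H V, ∑ k, ∑ k', f k k' * (dl k p * dl k' q) = f p q := by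
    intro p q
    have h1 : ∀ k, ∑ k', f k k' * (dl k p * dl k' q) = dl k p * f k q := by
      intro k
      rw [← sum_dl q (fun k' => f k k'), Finset.mul_sum]
      apply Finset.sum_congr rfl
      intro k' _
      ring
    rw [Finset.sum_congr rfl (fun k _ => h1 k)]
    exact sum_dl p (fun k => f k q)
  have h2 : ∀ k k', f k k' * circ a b e i j l k k'
      = (1 / a) * (f k k' * (dl k i * dl k' j)) - (1 / a) * (f k k' * (dl k j * dl k' i))
        + (1 / b) * (f k k' * (dl k j * dl k' l)) - (1 / b) * (f k k' * (dl k l * dl k' j))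
        + (1 / e) * (f k k' * (dl k l * dl k' i)) - (1 / e) * (f k k' * (dl k i * dl k' l)) := by
    intro k k'
    unfold circ
    ring
  simp only [h2, Finset.sum_add_distrib, Finset.sum_sub_distrib, ← Finset.mul_sum, key]
  ring

/-- circulations have no flux -/
lemma circ_flux (hW : Cx H W) (hm : ∀ h : H, StrictMono (fun x : UI => h • x))
    (hst : ∀ v : V, Finite (MulAction.stabilizer H v)) (x : Ty H V → UI) (i j l : Ty H V)
    (h1 : tM hW x i j ≠ 0) (h2 : tM hW x j l ≠ 0) (h3 : tM hW x l i ≠ 0) (k : Ty H V) :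
    ∑ k', tM hW x k k' * circ (cw i * tM hW x i j) (cw j * tM hW x j l) (cw l * tM hW x l i)
      i j l k k' = 0 := by
  set a := cw i * tM hW x i j with ha
  set b := cw j * tM hW x j l with hb
  set e := cw l * tM hW x l i with he
  have hci := (cw_pos hst i).ne'
  have hcj := (cw_pos hst j).ne'
  have hcl := (cw_pos hst l).ne'
  have ha0 : a ≠ 0 := mul_ne_zero hci h1
  have hb0 : b ≠ 0 := mul_ne_zero hcj h2
  have he0 : e ≠ 0 := mul_ne_zero hcl h3
  have ha' : a = cw j * tM hW x j i := tM_symm hW hm hst x i j
  have hb' : b = cw l * tM hW x l j := tM_symm hW hm hst x j l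
  have he' : e = cw i * tM hW x i l := tM_symm hW hm hst x l i
  have hs : ∑ k', tM hW x k k' * circ a b e i j l k k'
      = (dl k i * tM hW x k j - dl k j * tM hW x k i) / a
        + (dl k j * tM hW x k l - dl k l * tM hW x k j) / b
        + (dl k l * tM hW x k i - dl k i * tM hW x k l) / e := by
    have h4 : ∀ k', tM hW x k k' * circ a b e i j l k k'
        = (dl k i / a) * (dl k' j * tM hW x k k') - (dl k j / a) * (dl k' i * tM hW x k k')
          + (dl k j / b) * (dl k' l * tM hW x k k') - (dl k l / b) * (dl k' j * tM hW x k k')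
          + (dl k l / e) * (dl k' i * tM hW x k k') - (dl k i / e) * (dl k' l * tM hW x k k') := by
      intro k'
      unfold circ
      ring
    simp only [h4, Finset.sum_add_distrib, Finset.sum_sub_distrib, ← Finset.mul_sum,
      sum_dl _ (fun k' => tM hW x k k')]
    ring
  rw [hs]
  have e1 : dl k i * (tM hW x k j / a - tM hW x k l / e) = 0 := by
    unfold dl
    split_ifs with h
    · subst h
      have q1 : tM hW x k j / a = 1 / cw k := by
        rw [ha]; field_simp
      have q2 : tM hW x k l / e = 1 / cw k := by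
        rw [div_eq_div_iff he0 hci, he']
        ring
      rw [q1, q2]; ring
    · ring
  have e2 : dl k j * (tM hW x k l / b - tM hW x k i / a) = 0 := by
    unfold dl
    split_ifs with h
    · subst h
      have q1 : tM hW x k l / b = 1 / cw k := by
        rw [hb]; field_simp
      have q2 : tM hW x k i / a = 1 / cw k := by
        rw [div_eq_div_iff ha0 hcj, ha']
        ring
      rw [q1, q2]; ring
    · ring
  have e3 : dl k l * (tM hW x k i / e - tM hW x k j / b) = 0 := by
    unfold dl
    split_ifs with h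
    · subst h
      have q1 : tM hW x k i / e = 1 / cw k := by
        rw [he]; field_simp
      have q2 : tM hW x k j / b = 1 / cw k := by
        rw [div_eq_div_iff hb0 hcl, hb']
        ring
      rw [q1, q2]; ring
    · ring
  have e4 : (dl k i * tM hW x k j - dl k j * tM hW x k i) / a
        + (dl k j * tM hW x k l - dl k l * tM hW x k j) / b
        + (dl k l * tM hW x k i - dl k i * tM hW x k l) / e
      = dl k i * (tM hW x k j / a - tM hW x k l / e)
        + dl k j * (tM hW x k l / b - tM hW x k i / a)
        + dl k l * (tM hW x k i / e - tM hW x k j / b) := by ring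
  rw [e4, e1, e2, e3]
  ring

omit [MulAction H UI] [Fintype (Ty H V)] in
lemma circ_neg_cases {a b e : ℝ} (ha : 0 < a) (hb : 0 < b) (he : 0 < e) (i j l k k' : Ty H V)
    (h : circ a b e i j l k k' < 0) :
    (k = j ∧ k' = i) ∨ (k = l ∧ k' = j) ∨ (k = i ∧ k' = l) := by
  by_contra hcon
  push Not at hcon
  obtain ⟨h1, h2, h3⟩ := hcon
  have z1 : dl k j * dl k' i = 0 := by
    unfold dl
    by_cases h4 : k = j
    · rw [if_neg (h1 h4), mul_zero]
    · rw [if_neg h4, zero_mul]
  have z2 : dl k l * dl k' j = 0 := by
    unfold dl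
    by_cases h4 : k = l
    · rw [if_neg (h2 h4), mul_zero]
    · rw [if_neg h4, zero_mul]
  have z3 : dl k i * dl k' l = 0 := by
    unfold dl
    by_cases h4 : k = i
    · rw [if_neg (h3 h4), mul_zero]
    · rw [if_neg h4, zero_mul]
  unfold circ at h
  rw [z1, z2, z3, sub_zero, sub_zero, sub_zero] at h
  have p1 : 0 ≤ dl k i * dl k' j / a := div_nonneg (mul_nonneg (dl_nonneg _ _) (dl_nonneg _ _)) ha.le
  have p2 : 0 ≤ dl k j * dl k' l / b := div_nonneg (mul_nonneg (dl_nonneg _ _) (dl_nonneg _ _)) hb.le
  have p3 : 0 ≤ dl k l * dl k' i / e := div_nonneg (mul_nonneg (dl_nonneg _ _) (dl_nonneg _ _)) he.le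
  linarith

/-- first order condition for the matrix of least energy -/
theorem min_circ (hW : Cx H W) (hm : ∀ h : H, StrictMono (fun x : UI => h • x))
    (hst : ∀ v : V, Finite (MulAction.stabilizer H v)) (x : Ty H V → UI)
    (d : Ty H V → Ty H V → ℝ) (hd : Feas hW x d)
    (hmin : ∀ d', Feas hW x d' → En hW x d ≤ En hW x d') (i j l : Ty H V)
    (h1 : tM hW x i j ≠ 0) (h2 : tM hW x j l ≠ 0) (h3 : tM hW x l i ≠ 0)
    (g1 : -1 < d i j) (g2 : -1 < d j l) (g3 : -1 < d l i) :
    d i j + d j l + d l i ≤ 0 := by
  set a := cw i * tM hW x i j with ha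
  set b := cw j * tM hW x j l with hb
  set e := cw l * tM hW x l i with he
  have hapos : 0 < a := mul_pos (cw_pos hst i) (lt_of_le_of_ne (tM_nonneg hW x i j) (Ne.symm h1))
  have hbpos : 0 < b := mul_pos (cw_pos hst j) (lt_of_le_of_ne (tM_nonneg hW x j l) (Ne.symm h2))
  have hepos : 0 < e := mul_pos (cw_pos hst l) (lt_of_le_of_ne (tM_nonneg hW x l i) (Ne.symm h3))
  set C : Ty H V → Ty H V → ℝ := circ a b e i j l with hC
  -- feasibility for small δ
  have hev : ∀ᶠ δ in 𝓝[>] (0:ℝ), ∀ k k', d k k' - δ * C k k' ≤ 1 := by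
    rw [eventually_all]
    intro k
    rw [eventually_all]
    intro k'
    rcases le_or_gt 0 (C k k') with hCn | hCn
    · filter_upwards [self_mem_nhdsWithin] with δ hδ
      have hδ' : 0 < δ := hδ
      have := hd.le k k'
      nlinarith [mul_nonneg hδ'.le hCn]
    · have hlt : d k k' < 1 := by
        rcases circ_neg_cases hapos hbpos hepos i j l k k' hCn with ⟨rfl, rfl⟩ | ⟨rfl, rfl⟩ |
          ⟨rfl, rfl⟩
        · rw [hd.anti]; linarith
        · rw [hd.anti]; linarith
        · rw [hd.anti]; linarith
      have ht : Tendsto (fun δ : ℝ => d k k' - δ * C k k') (𝓝[>] 0) (𝓝 (d k k' - 0 * C k k')) := by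
        apply Tendsto.mono_left _ nhdsWithin_le_nhds
        apply Continuous.tendsto
        fun_prop
      rw [zero_mul, sub_zero] at ht
      exact (ht.eventually (gt_mem_nhds hlt)).mono (fun δ hδ => hδ.le)
  set Q : ℝ := ∑ k, ∑ k', cw k * tM hW x k k' * (C k k') ^ 2 with hQ
  have hev2 : ∀ᶠ δ in 𝓝[>] (0:ℝ), 4 * (d i j + d j l + d l i) ≤ δ * Q := by
    filter_upwards [hev, self_mem_nhdsWithin] with δ hδ hδpos
    have hδ0 : 0 < δ := hδpos
    have hfe : Feas hW x (fun k k' => d k k' - δ * C k k') := by
      refine ⟨?_, ?_, ?_⟩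
      · intro p q
        show d q p - δ * C q p = - (d p q - δ * C p q)
        rw [hd.anti p q, hC, circ_anti]
        ring
      · exact hδ
      · intro p
        have h4 := hd.flux p
        have h5 := circ_flux hW hm hst x i j l h1 h2 h3 p
        have h6 : ∑ q, tM hW x p q * (d p q - δ * C p q)
            = ∑ q, tM hW x p q * d p q - δ * ∑ q, tM hW x p q * C p q := by
          rw [Finset.mul_sum, ← Finset.sum_sub_distrib]
          apply Finset.sum_congr rfl
          intro q _
          ring
        show xF hW x p + ∑ q, tM hW x p q * (d p q - δ * C p q) = 0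
        rw [h6]
        have h7 : ∑ q, tM hW x p q * C p q = 0 := h5
        rw [h7]
        linarith
    have h8 := hmin _ hfe
    have h9 : En hW x (fun k k' => d k k' - δ * C k k')
        = En hW x d - 2 * δ * (∑ k, ∑ k', (cw k * tM hW x k k' * d k k') * C k k')
          + δ ^ 2 * Q := by
      unfold En
      rw [hQ, Finset.mul_sum, Finset.mul_sum, ← Finset.sum_sub_distrib, ← Finset.sum_add_distrib]
      apply Finset.sum_congr rfl
      intro k _
      rw [Finset.mul_sum, Finset.mul_sum, ← Finset.sum_sub_distrib, ← Finset.sum_add_distrib]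
      apply Finset.sum_congr rfl
      intro k' _
      ring
    have h10 : ∑ k, ∑ k', (cw k * tM hW x k k' * d k k') * C k k'
        = 2 * (d i j + d j l + d l i) := by
      rw [hC, sum_circ a b e i j l (fun k k' => cw k * tM hW x k k' * d k k')]
      have q1 : cw j * tM hW x j i = a := (tM_symm hW hm hst x i j).symm
      have q2 : cw l * tM hW x l j = b := (tM_symm hW hm hst x j l).symm
      have q3 : cw i * tM hW x i l = e := (tM_symm hW hm hst x l i).symm
      rw [q1, q2, q3, ← ha, ← hb, ← he, hd.anti i j, hd.anti j l, hd.anti l i]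
      field_simp
      ring
    rw [h9, h10] at h8
    have h11 : δ * (4 * (d i j + d j l + d l i)) ≤ δ * (δ * Q) := by nlinarith
    exact le_of_mul_le_mul_left h11 hδ0
  have hlim : Tendsto (fun δ : ℝ => δ * Q) (𝓝[>] 0) (𝓝 (0 * Q)) := by
    apply Tendsto.mono_left _ nhdsWithin_le_nhds
    apply Continuous.tendsto
    fun_prop
  rw [zero_mul] at hlim
  have := ge_of_tendsto hlim hev2
  linarith

end LGap
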