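import Pool.Agent.LGap.Limit

/-! # Ties: averaging the limit over tied pairs -/

open MulAction Filter Topology

namespace LGap

variable {H V : Type*} [Group H] [MulAction H V] [MulAction H UI]
variable {W : V → V → V → ℝ}

lemma smul_eq_smul_iff' (hm : ∀ h : H, StrictMono (fun x : UI => h • x)) (h : H) {a b : UI} :
    h • a = h • b ↔ a = b := (hm h).injective.eq_iff

omit [MulAction H UI] in
/-- mass transport between two types -/
lemma mt_pair [Fintype (Ty H V)] (hW : Cx H W)
    (hst : ∀ v : V, Finite (MulAction.stabilizer H v))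
    (E : V → V → ℝ) (hinv : ∀ (h : H) v w, E (h • v) (h • w) = E v w) (i j : Ty H V)
    [DecidableEq (Ty H V)] :
    cw i * ∑ w ∈ nbr hW (rep i), em W (rep i) w * (if typ H w = j then E (rep i) w else 0)
      = cw j * ∑ w ∈ nbr hW (rep j), em W (rep j) w * (if typ H w = i then E w (rep j) else 0) := by
  have h1 := massTransport_em hW hst
    (fun v w => if typ H v = i ∧ typ H w = j then E v w else 0)
    (fun h v w => by simp only [typ_smul, hinv])
  simp only [finsum_em hW, typ_rep] at h1
  rw [Finset.sum_eq_single i, Finset.sum_eq_single j] at h1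
  · simp only [true_and, and_true] at h1
    exact h1
  · intro b _ hb
    rw [Finset.sum_eq_zero, mul_zero]
    intro w _
    rw [if_neg (by tauto), mul_zero]
  · intro h2; exact absurd (Finset.mem_univ _) h2
  · intro b _ hb
    rw [Finset.sum_eq_zero, mul_zero]
    intro w _
    rw [if_neg (by tauto), mul_zero]
  · intro h2; exact absurd (Finset.mem_univ _) h2

section
variable [DecidableEq (Ty H V)]

/-- total weight of the tied edges from type `i` to type `j` -/
noncomputable def tM (hW : Cx H W) (x : Ty H V → UI) (i j : Ty H V) : ℝ :=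
  ∑ w ∈ nbr hW (rep i), em W (rep i) w *
    (if typ H w = j then (if pos x (rep i) = pos x w then 1 else 0) else 0)

/-- total flux over the tied edges -/
noncomputable def tT (hW : Cx H W) (x : Ty H V → UI) (D : V → V → ℝ) (i j : Ty H V) : ℝ :=
  ∑ w ∈ nbr hW (rep i), em W (rep i) w *
    (if typ H w = j then (if pos x (rep i) = pos x w then D (rep i) w else 0) else 0)

/-- external flux -/
noncomputable def xF (hW : Cx H W) (x : Ty H V → UI) (i : Ty H V) : ℝ :=
  ∑ w ∈ nbr hW (rep i), em W (rep i) w *
    (if pos x (rep i) < pos x w then 1 else if pos x w < pos x (rep i) then -1 else 0)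

lemma tM_nonneg (hW : Cx H W) (x : Ty H V → UI) (i j : Ty H V) : 0 ≤ tM hW x i j := by
  apply Finset.sum_nonneg
  intro w _
  apply mul_nonneg (em_nonneg hW _ _)
  split_ifs <;> norm_num

variable [Fintype (Ty H V)]

lemma tM_symm (hW : Cx H W) (hm : ∀ h : H, StrictMono (fun x : UI => h • x))
    (hst : ∀ v : V, Finite (MulAction.stabilizer H v)) (x : Ty H V → UI) (i j : Ty H V) :
    cw i * tM hW x i j = cw j * tM hW x j i := by
  have h1 := mt_pair hW hst (fun v w => if pos x v = pos x w then (1:ℝ) else 0)
    (fun h v w => by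
      simp only [pos_smul hm hst, smul_eq_smul_iff' hm]) i j
  unfold tM
  rw [h1]
  congr 1
  apply Finset.sum_congr rfl
  intro w _
  congr 1
  simp only [eq_comm]

lemma tT_anti (hW : Cx H W) (hm : ∀ h : H, StrictMono (fun x : UI => h • x))
    (hst : ∀ v : V, Finite (MulAction.stabilizer H v)) (x : Ty H V → UI)
    (D : V → V → ℝ) (hinv : ∀ (h : H) v w, D (h • v) (h • w) = D v w)
    (hanti : ∀ v w, D w v = - D v w) (i j : Ty H V) :
    cw i * tT hW x D i j = - (cw j * tT hW x D j i) := by
  have h1 := mt_pair hW hst (fun v w => if pos x v = pos x w then D v w else 0)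
    (fun h v w => by
      simp only [pos_smul hm hst, hinv, smul_eq_smul_iff' hm]) i j
  unfold tT
  rw [h1, ← mul_neg, ← Finset.sum_neg_distrib]
  congr 1
  apply Finset.sum_congr rfl
  intro w _
  rw [← mul_neg]
  congr 1
  by_cases h2 : typ H w = i
  · rw [if_pos h2, if_pos h2]
    by_cases h3 : pos x w = pos x (rep j)
    · rw [if_pos h3, if_pos h3.symm, hanti]
    · rw [if_neg h3, if_neg (Ne.symm h3), neg_zero]
  · rw [if_neg h2, if_neg h2, neg_zero]

/-- feasible matrices -/
structure Feas (hW : Cx H W) (x : Ty H V → UI) (d : Ty H V → Ty H V → ℝ) : Prop where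
  anti : ∀ i j, d j i = - d i j
  le : ∀ i j, d i j ≤ 1
  flux : ∀ i, xF hW x i + ∑ j, tM hW x i j * d i j = 0

/-- the sum of the signs over the vertices of the same type vanishes -/
lemma same_type_flux (hW : Cx H W) (hm : ∀ h : H, StrictMono (fun x : UI => h • x))
    (hst : ∀ v : V, Finite (MulAction.stabilizer H v)) (x : Ty H V → UI) (i : Ty H V) :
    ∑ w ∈ nbr hW (rep i), em W (rep i) w * (if typ H w = i then
      (if pos x (rep i) < pos x w then (1:ℝ) else if pos x w < pos x (rep i) then -1 else 0)
        else 0) = 0 := by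
  have h1 := mt_pair hW hst
    (fun v w => if pos x v < pos x w then (1:ℝ) else if pos x w < pos x v then -1 else 0)
    (fun h v w => by
      simp only [pos_smul hm hst, smul_lt_smul_iff' hm]) i i
  have h2 : ∑ w ∈ nbr hW (rep i), em W (rep i) w * (if typ H w = i then
      (if pos x w < pos x (rep i) then (1:ℝ) else if pos x (rep i) < pos x w then -1 else 0)
        else 0) = - ∑ w ∈ nbr hW (rep i), em W (rep i) w * (if typ H w = i then
      (if pos x (rep i) < pos x w then (1:ℝ) else if pos x w < pos x (rep i) then -1 else 0)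
        else 0) := by
    rw [← Finset.sum_neg_distrib]
    apply Finset.sum_congr rfl
    intro w _
    rw [← mul_neg]
    congr 1
    by_cases h3 : typ H w = i
    · rw [if_pos h3, if_pos h3]
      rcases lt_trichotomy (pos x (rep i)) (pos x w) with h4 | h4 | h4
      · rw [if_neg (not_lt.2 h4.le), if_pos h4, if_pos h4]
      · rw [h4]
        simp
      · rw [if_pos h4, if_neg (not_lt.2 h4.le), if_pos h4, neg_neg]
    · rw [if_neg h3, if_neg h3, neg_zero]
  rw [h2] at h1
  have h5 := cw_pos hst i
  have h6 : cw i * (2 * ∑ w ∈ nbr hW (rep i), em W (rep i) w * (if typ H w = i then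
      (if pos x (rep i) < pos x w then (1:ℝ) else if pos x w < pos x (rep i) then -1 else 0)
        else 0)) = 0 := by linarith
  rcases mul_eq_zero.1 h6 with h7 | h7
  · exact absurd h7 h5.ne'
  · linarith

/-- existence of a feasible matrix -/
theorem exists_feas (hW : Cx H W)
    (hm : ∀ h : H, StrictMono (fun x : UI => h • x))
    (hst : ∀ v : V, Finite (MulAction.stabilizer H v))
    (hconn : ∀ v w : V, Relation.ReflTransGen (fun a b => em W a b ≠ 0) v w)
    (o₀ : Ty H V) (c : UI) (hc : c < 1) :
    ∃ (x : Ty H V → UI) (d : Ty H V → Ty H V → ℝ), x o₀ = c ∧ Feas hW x d := by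
  obtain ⟨x, D, hx0, hinv, hanti, hle, hone, hsame, hflux⟩ :=
    exists_limit hW hm hst hconn o₀ c hc
  have hTM : ∀ i j, tT hW x D i j ≤ tM hW x i j := by
    intro i j
    apply Finset.sum_le_sum
    intro w _
    apply mul_le_mul_of_nonneg_left _ (em_nonneg hW _ _)
    split_ifs
    · exact hle _ _
    · exact le_rfl
    · exact le_rfl
  have hMpos : ∀ i j, tM hW x i j = 0 → tT hW x D i j = 0 := by
    intro i j h0
    have hterm : ∀ w ∈ nbr hW (rep i), em W (rep i) w *
        (if typ H w = j then (if pos x (rep i) = pos x w then (1:ℝ) else 0) else 0) = 0 := by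
      apply (Finset.sum_eq_zero_iff_of_nonneg _).1 h0
      intro w _
      apply mul_nonneg (em_nonneg hW _ _)
      split_ifs <;> norm_num
    apply Finset.sum_eq_zero
    intro w hw
    have h1 := hterm w hw
    rcases mul_eq_zero.1 h1 with h2 | h2
    · rw [h2, zero_mul]
    · by_cases h3 : typ H w = j
      · rw [if_pos h3] at h2
        by_cases h4 : pos x (rep i) = pos x w
        · rw [if_pos h4] at h2
          norm_num at h2
        · rw [if_pos h3, if_neg h4, mul_zero]
      · rw [if_neg h3, mul_zero]
  refine ⟨x, fun i j => tT hW x D i j / tM hW x i j, hx0, ?_, ?_, ?_⟩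
  · intro i j
    show tT hW x D j i / tM hW x j i = - (tT hW x D i j / tM hW x i j)
    have h1 := tT_anti hW hm hst x D hinv hanti i j
    have h2 := tM_symm hW hm hst x i j
    have h3 := cw_pos hst i
    have h4 := cw_pos hst j
    by_cases h5 : tM hW x i j = 0
    · have h6 : tM hW x j i = 0 := by
        rw [h5, mul_zero] at h2
        rcases mul_eq_zero.1 h2.symm with h7 | h7
        · exact absurd h7 h4.ne'
        · exact h7
      rw [h5, h6]; simp
    · have h6 : tM hW x j i ≠ 0 := by
        intro h7
        rw [h7, mul_zero] at h2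
        rcases mul_eq_zero.1 h2 with h8 | h8
        · exact h3.ne' h8
        · exact h5 h8
      rw [← neg_div, div_eq_div_iff h6 h5]
      have h9 : (cw i * cw j) * (tT hW x D j i * tM hW x i j)
          = (cw i * cw j) * (-tT hW x D i j * tM hW x j i) := by
        calc (cw i * cw j) * (tT hW x D j i * tM hW x i j)
            = (cw j * tT hW x D j i) * (cw i * tM hW x i j) := by ring
          _ = (-(cw i * tT hW x D i j)) * (cw j * tM hW x j i) := by rw [h2, h1, neg_neg]
          _ = _ := by ring
      exact mul_left_cancel₀ (mul_pos h3 h4).ne' h9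
  · intro i j
    show tT hW x D i j / tM hW x i j ≤ 1
    by_cases h5 : tM hW x i j = 0
    · rw [h5]; simp
    · have h6 : 0 < tM hW x i j := lt_of_le_of_ne (tM_nonneg hW x i j) (Ne.symm h5)
      rw [div_le_one h6]
      exact hTM i j
  · intro i
    have h1 : ∀ j, tM hW x i j * (tT hW x D i j / tM hW x i j) = tT hW x D i j := by
      intro j
      by_cases h5 : tM hW x i j = 0
      · rw [h5, zero_mul, hMpos i j h5]
      · field_simp
    rw [Finset.sum_congr rfl (fun j _ => h1 j)]
    -- sum of the tied fluxes
    have h2 : ∑ j, tT hW x D i j = ∑ w ∈ nbr hW (rep i), em W (rep i) w *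
        (if pos x (rep i) = pos x w then D (rep i) w else 0) := by
      unfold tT
      rw [Finset.sum_comm]
      apply Finset.sum_congr rfl
      intro w _
      rw [← Finset.mul_sum]
      congr 1
      simp
    rw [h2]
    have h3 := same_type_flux hW hm hst x i
    have h4 := hflux i
    have h5 : xF hW x i + ∑ w ∈ nbr hW (rep i), em W (rep i) w *
        (if pos x (rep i) = pos x w then D (rep i) w else 0)
        = ∑ w ∈ nbr hW (rep i), em W (rep i) w * D (rep i) w
          + ∑ w ∈ nbr hW (rep i), em W (rep i) w * (if typ H w = i then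
      (if pos x (rep i) < pos x w then (1:ℝ) else if pos x w < pos x (rep i) then -1 else 0)
        else 0) := by
      unfold xF
      rw [← Finset.sum_add_distrib, ← Finset.sum_add_distrib]
      apply Finset.sum_congr rfl
      intro w _
      rw [← mul_add, ← mul_add]
      congr 1
      by_cases h6 : typ H w = i
      · have h7 : D (rep i) w = 0 := hsame _ _ (by rw [typ_rep, h6])
        rw [h7, if_pos h6]
        simp
      · have h8 : typ H (rep i : V) ≠ typ H w := by rw [typ_rep]; exact Ne.symm h6
        rw [if_neg h6, add_zero]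
        rcases lt_trichotomy (pos x (rep i)) (pos x w) with h9 | h9 | h9
        · rw [if_pos h9, if_neg h9.ne, hone _ _ h8 h9, add_zero]
        · rw [if_pos h9, h9]; simp
        · rw [if_neg (not_lt.2 h9.le), if_pos h9, if_neg h9.ne', add_zero]
          have := hone _ _ (Ne.symm h8) h9
          rw [hanti] at this
          linarith
    rw [h5, h3, h4, add_zero]

end

end LGap
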